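import Pool.Agent.Y139.SM.GDefs

/-!
# Normalized traces of Frobenius and sets of small capacity: definitions

`X` is a smooth projective variety over a number field `K`, of dimension `d`, and `N` its `i`-th Betti
number; for example an abelian variety of dimension `g`, `i = 1` and `N = 2 g`.
-/

set_option autoImplicit false

namespace Pool.Agent.Y139.IM

open NumberField IsDedekindDomain Filter Topology Polynomial
open Pool.Agent.W353.EF (IsFrobenius LFun)
open Pool.Agent.W353.EH (edgePoint size HasOrder)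
open Pool.Agent.Y139.SM (IsPowerSystem)

/-- For almost all primes `v`, `t v` is the normalized trace `(α_1 + ⋯ + α_N) / q_v^{i/2}` of Frobenius
on `H^i(X)`; at the other primes `t v` is an arbitrary real number of absolute value at most `N`. -/
def IsTrace {K : Type} [Field K] [NumberField K] {l : ℕ} (X : Set (MvPolynomial (Fin l) (𝓞 K)))
    (d i N : ℕ) (t : HeightOneSpectrum (𝓞 K) → ℝ) : Prop :=
  (∀ v, |t v| ≤ N) ∧ ∀ᶠ v in cofinite, ∃ α : Fin N → ℂ, IsFrobenius X d i v α ∧
    (t v : ℂ) = (∑ j, α j) / (((Ideal.absNorm v.asIdeal : ℝ) ^ ((i : ℝ) / 2) : ℝ) : ℂ)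

section
variable {K : Type} [Field K] [NumberField K]

/-- The mean value of `f` over the primes `v` of `K` with the weights `q_v^{-1-ε}`. -/
noncomputable def avg (f : HeightOneSpectrum (𝓞 K) → ℝ) (ε : ℝ) : ℝ :=
  (∑' v : HeightOneSpectrum (𝓞 K), f v * (Ideal.absNorm v.asIdeal : ℝ) ^ (-(1 + ε))) /
    ∑' v : HeightOneSpectrum (𝓞 K), (Ideal.absNorm v.asIdeal : ℝ) ^ (-(1 + ε))

open Classical in
/-- The proportion of the primes in `A`, with the weights `q_v^{-1-ε}`; the limit for `ε → 0+` is the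
Dirichlet density of `A`. -/
noncomputable def proportion (A : Set (HeightOneSpectrum (𝓞 K))) (ε : ℝ) : ℝ :=
  avg (fun v => if v ∈ A then 1 else 0) ε

end

/-- For every `r` the quotient `x_r(ε) = log |L(H^i(X)^{⊗ r}, edge + ε)| / log(1/ε)` tends to an integer
as `ε → 0+`.  This is the case if `L(H^i(X)^{⊗ r}, s)` has for every `r` a meromorphic continuation to some
neighbourhood of the edge `s = r i / 2 + 1`. -/
def IntegralOrders {K : Type} [Field K] [NumberField K] {l : ℕ}
    (X : Set (MvPolynomial (Fin l) (𝓞 K))) (d i N : ℕ) : Prop :=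
  ∀ r : ℕ, ∃ (B : HeightOneSpectrum (𝓞 K) → ℂ[X]) (k : ℤ),
    IsPowerSystem X d i N r (1 : Representation ℂ Gal(AlgebraicClosure K/K) (Fin 1 → ℂ)) B ∧
    Tendsto (size (r * i) 0 B) (𝓝[>] 0) (𝓝 (k : ℝ))

/-- For every `r`, `L(H^i(X)^{⊗ r}, s)` has a meromorphic continuation to some neighbourhood of the edge
`s = r i / 2 + 1`. -/
def Continuations {K : Type} [Field K] [NumberField K] {l : ℕ}
    (X : Set (MvPolynomial (Fin l) (𝓞 K))) (d i N : ℕ) : Prop :=
  ∀ r : ℕ, ∃ (B : HeightOneSpectrum (𝓞 K) → ℂ[X]) (Λ : ℂ → ℂ),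
    IsPowerSystem X d i N r (1 : Representation ℂ Gal(AlgebraicClosure K/K) (Fin 1 → ℂ)) B ∧
    MeromorphicAt Λ (edgePoint (r * i) 0) ∧
    ∀ᶠ s in 𝓝 (edgePoint (r * i) 0), ((r * i : ℕ) : ℝ) / 2 + 1 < s.re → Λ s = LFun B s

/-- `S` has a Chebyshev constant (logarithmic capacity, transfinite diameter) less than one: some real
monic polynomial of positive degree has absolute value at most `c < 1` on `S`. -/
def SmallCapacity (S : Set ℝ) : Prop :=
  ∃ (q : ℝ[X]) (c : ℝ), q.Monic ∧ 1 ≤ q.natDegree ∧ c < 1 ∧ ∀ x ∈ S, |q.eval x| ≤ c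

end Pool.Agent.Y139.IM
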