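import Pool.Agent.Y139.IM.Quant2
import Pool.Agent.Y139.IM.Defs
import Pool.Agent.Y139.SM.Rigid3
import Pool.Agent.Y139.SM.Fin2

/-! The moments of the normalized traces. -/

set_option autoImplicit false

namespace Pool.Agent.Y139.IM

open Complex Filter Topology NumberField IsDedekindDomain
  Pool.Agent.W401.Cheb Pool.Agent.W540.BE Pool.Agent.W353.L1 Polynomial
open Pool.Agent.H341R2 (lam lam_tendsto)
open Pool.Agent.W353.PV (tF Eig alp pick pick_spec)
open Pool.Agent.W353.EF (LFun)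
open Pool.Agent.W353.EH (edgePoint size HasOrder)
open Pool.Agent.Y139.SM (IsPowerSystem EP_cofinite power_size one_artin RR_one)

section
variable {K : Type} [Field K] [NumberField K] {l : ℕ} {X : Set (MvPolynomial (Fin l) (𝓞 K))}
  {d i N : ℕ} {t : HeightOneSpectrum (𝓞 K) → ℝ}

theorem trace_eq (hi : i ≤ 2 * d) (ht : IsTrace X d i N t) :
    ∀ᶠ v in cofinite, t v = tF X d i N K v := by
  refine ht.2.mono fun v ⟨α, hα, hv⟩ => ?_
  have hα : Eig X d i v α := hα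
  have h3 : Eig X d i v (alp X d i N K v) := pick_spec ⟨_, hα⟩
  have h4 := hα.unique' hi h3
  have h5 : ∑ j, alp X d i N K v j = ∑ j, α j := (congrArg Multiset.sum h4).symm
  have h6 := tr_eq (w := (i : ℝ) / 2) (α := alp X d i N K) (fun j => h3.norm j) (h3.im hi)
  rw [h5] at h6
  have hq0 : (0 : ℝ) < (nm K v : ℝ) := by
    have := Pool.Agent.W353.L1.nm_pos v
    exact_mod_cast this
  have h7 : ((t v : ℝ) : ℂ) = ((tF X d i N K v : ℝ) : ℂ) := by
    rw [hv]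
    unfold tF
    rw [h6, div_eq_mul_inv, ← Complex.ofReal_inv, ← Real.rpow_neg (Nat.cast_nonneg _),
      Complex.ofReal_cpow (Nat.cast_nonneg _)]
    push_cast
    rfl
  exact_mod_cast h7

theorem moment (hi : i ≤ 2 * d) (ht : IsTrace X d i N t) {r : ℕ}
    {B : HeightOneSpectrum (𝓞 K) → ℂ[X]}
    (hB : IsPowerSystem X d i N r (1 : Representation ℂ (GK K) (Fin 1 → ℂ)) B) :
    Tendsto (fun ε => mean (fun v => t v ^ r) ε - size (r * i) 0 B ε) (𝓝[>] 0) (𝓝 0) := by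
  choose σ hσ using exists_isFrob (F := K)
  have h1 := (power_size hi hσ r _ one_artin B hB).2
  simp only [RR_one, mul_one] at h1
  have h2 := EP_cofinite (K := K) (φ := fun v => t v ^ r) (ψ := fun v => tF X d i N K v ^ r)
    (B := (N : ℝ) ^ r) (C := (N : ℝ) ^ r)
    (fun v => by
      rw [abs_pow]
      exact pow_le_pow_left₀ (abs_nonneg _) (ht.1 v) r)
    (fun v => by
      rw [abs_pow]
      exact pow_le_pow_left₀ (abs_nonneg _) (abs_tr_le _ _ _) r)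
    ((trace_eq hi ht).mono fun v hv => by rw [hv])
  have h3 := h2.add h1
  rw [add_zero] at h3
  refine h3.congr fun ε => ?_
  unfold mean
  ring

theorem nonvanishing (hi : i ≤ 2 * d) {r : ℕ} {B : HeightOneSpectrum (𝓞 K) → ℂ[X]}
    (hB : IsPowerSystem X d i N r (1 : Representation ℂ (GK K) (Fin 1 → ℂ)) B) :
    ∀ᶠ ε : ℝ in 𝓝[>] 0, LFun B (edgePoint (r * i) 0 + ε) ≠ 0 := by
  choose σ hσ using exists_isFrob (F := K)
  exact (power_size hi hσ r _ one_artin B hB).1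

theorem edge_lim (j : ℕ) : Tendsto (fun ε : ℝ => edgePoint j 0 + (ε : ℂ)) (𝓝[>] 0)
    (𝓝[≠] (edgePoint j 0)) := by
  refine tendsto_nhdsWithin_iff.2 ⟨?_, ?_⟩
  · have h1 : Tendsto (fun ε : ℝ => edgePoint j 0 + (ε : ℂ)) (𝓝 0) (𝓝 (edgePoint j 0 + (0 : ℝ))) :=
      (Complex.continuous_ofReal.tendsto 0).const_add _
    rw [Complex.ofReal_zero, add_zero] at h1
    exact h1.mono_left nhdsWithin_le_nhds
  · filter_upwards [self_mem_nhdsWithin] with ε hε
    have hε : (0 : ℝ) < ε := hε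
    simp only [Set.mem_compl_iff, Set.mem_singleton_iff]
    intro h
    have : (ε : ℂ) = 0 := by linear_combination h
    rw [Complex.ofReal_eq_zero] at this
    linarith

theorem edge_gt (j : ℕ) {ε : ℝ} (hε : 0 < ε) :
    ((j : ℕ) : ℝ) / 2 + 1 < (edgePoint j 0 + (ε : ℂ)).re := by
  rw [Complex.add_re, Pool.Agent.W353.AT.edge_re, Complex.ofReal_re]
  linarith

/-- continuations give integral orders -/
theorem integral_of_cont (hi : i ≤ 2 * d) (h : Continuations X d i N) :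
    IntegralOrders X d i N := by
  intro r
  obtain ⟨B, Λ, hB, hΛ, hΛ2⟩ := h r
  have hnz := nonvanishing hi hB
  have hne : meromorphicOrderAt Λ (edgePoint (r * i) 0) ≠ ⊤ := by
    intro htop
    rw [meromorphicOrderAt_eq_top_iff] at htop
    have h1 := (edge_lim (r * i)).eventually htop
    have h2 : ∀ᶠ ε : ℝ in 𝓝[>] 0, ((r * i : ℕ) : ℝ) / 2 + 1 < (edgePoint (r * i) 0 + (ε : ℂ)).re →
        Λ (edgePoint (r * i) 0 + (ε : ℂ)) = LFun B (edgePoint (r * i) 0 + (ε : ℂ)) :=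
      ((edge_lim (r * i)).mono_right nhdsWithin_le_nhds).eventually hΛ2
    have h3 : ∀ᶠ ε : ℝ in 𝓝[>] 0, False := by
      filter_upwards [h1, h2, hnz, self_mem_nhdsWithin] with ε g1 g2 g3 g4
      exact g3 ((g2 (edge_gt _ g4)).symm.trans g1)
    exact (h3.exists).elim fun _ h => h
  obtain ⟨k, hk⟩ := WithTop.ne_top_iff_exists.1 hne
  refine ⟨B, -k, hB, ?_⟩
  have h1 : HasOrder (r * i) 0 B k := ⟨Λ, hΛ, hΛ2, hk.symm⟩
  have h2 := Pool.Agent.Y139.SM.size_of_order hnz h1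
  push_cast
  exact h2

/-! ### Averages -/

theorem mean_one : Tendsto (fun ε : ℝ => mean (K := K) (fun _ => 1) ε) (𝓝[>] 0) (𝓝 1) := EP_one K

theorem mean_eq {φ : HeightOneSpectrum (𝓞 K) → ℝ} {ε : ℝ} (h : 0 < mean (K := K) (fun _ => 1) ε)
    (hlam : 0 < lam ε) : mean φ ε = avg φ ε * mean (K := K) (fun _ => 1) ε := by
  have h1 : avg φ ε = EP (nm K) ε φ / EP (nm K) ε fun _ => 1 := by
    unfold avg EP
    simp only [one_mul]
    rfl
  have h2 : (EP (nm K) ε fun _ => 1) ≠ 0 := by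
    intro h0
    unfold mean at h
    rw [h0, zero_div] at h
    exact lt_irrefl _ h
  rw [h1]
  unfold mean
  field_simp

theorem good_eps : ∀ᶠ ε : ℝ in 𝓝[>] 0, 0 < ε ∧ 0 < lam ε ∧
    1 / 2 < mean (K := K) (fun _ => 1) ε ∧ mean (K := K) (fun _ => 1) ε < 2 := by
  filter_upwards [self_mem_nhdsWithin, lam_tendsto.eventually_gt_atTop 0,
    (mean_one (K := K)).eventually_const_lt (by norm_num : (1 / 2 : ℝ) < 1),
    (mean_one (K := K)).eventually_lt_const (by norm_num : (1 : ℝ) < 2)] with ε h1 h2 h3 h4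
  exact ⟨h1, h2, h3, h4⟩

theorem avg_nonneg {φ : HeightOneSpectrum (𝓞 K) → ℝ} (h : ∀ v, 0 ≤ φ v) (ε : ℝ) :
    0 ≤ avg φ ε := by
  unfold avg
  refine div_nonneg (tsum_nonneg fun v => mul_nonneg (h v) ?_) (tsum_nonneg fun v => ?_) <;>
  exact Real.rpow_nonneg (Nat.cast_nonneg _) _

theorem half_le_avg {φ : HeightOneSpectrum (𝓞 K) → ℝ} (hφ : ∀ v, 0 ≤ φ v) {ε δ : ℝ}
    (h : 0 < ε ∧ 0 < lam ε ∧ 1 / 2 < mean (K := K) (fun _ => 1) ε ∧
      mean (K := K) (fun _ => 1) ε < 2) (hd : δ ≤ mean φ ε) : δ / 2 ≤ avg φ ε := by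
  rw [mean_eq (by linarith [h.2.2.1]) h.2.1] at hd
  have h0 := avg_nonneg hφ ε
  have h1 := h.2.2.2
  nlinarith

theorem avg_le_two {φ : HeightOneSpectrum (𝓞 K) → ℝ} (hφ : ∀ v, 0 ≤ φ v) {ε c : ℝ}
    (h : 0 < ε ∧ 0 < lam ε ∧ 1 / 2 < mean (K := K) (fun _ => 1) ε ∧
      mean (K := K) (fun _ => 1) ε < 2) (hd : mean φ ε ≤ c) : avg φ ε ≤ 2 * c := by
  rw [mean_eq (by linarith [h.2.2.1]) h.2.1] at hd
  have h0 := avg_nonneg hφ ε
  have h1 := h.2.2.1
  nlinarith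

theorem avg_tendsto {φ : HeightOneSpectrum (𝓞 K) → ℝ} (hφ : ∀ v, 0 ≤ φ v)
    (h : Tendsto (mean φ) (𝓝[>] 0) (𝓝 0)) : Tendsto (avg φ) (𝓝[>] 0) (𝓝 0) := by
  have h1 : Tendsto (fun ε => 2 * mean φ ε) (𝓝[>] 0) (𝓝 (2 * 0)) := h.const_mul 2
  rw [mul_zero] at h1
  refine squeeze_zero' (Eventually.of_forall fun ε => avg_nonneg hφ ε) ?_ h1
  filter_upwards [good_eps (K := K)] with ε hε
  exact avg_le_two hφ hε le_rfl

end

end Pool.Agent.Y139.IM
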