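import Pool.Agent.Y139.IM.Hankel

/-! Integral moments and a null polynomial: the minimal null polynomial is integral, with real roots. -/

set_option autoImplicit false

namespace Pool.Agent.Y139.IM

open Polynomial

/-! ### Integral sequences with a linear recurrence -/

section
variable (Q : ℤ[X])

/-- the integral sequences that satisfy the recurrence `Q` -/
def Rec : Submodule ℤ (ℕ → ℤ) where
  carrier := {s | ∀ r, ∑ i ∈ Finset.range (Q.natDegree + 1), Q.coeff i * s (r + i) = 0}
  zero_mem' := by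
    intro r
    simp
  add_mem' := by
    intro s t hs ht r
    have h1 := hs r
    have h2 := ht r
    simp only [Pi.add_apply, mul_add, Finset.sum_add_distrib]
    rw [h1, h2, add_zero]
  smul_mem' := by
    intro c s hs r
    have h1 := hs r
    simp only [Pi.smul_apply, smul_eq_mul]
    have h2 : ∑ i ∈ Finset.range (Q.natDegree + 1), Q.coeff i * (c * s (r + i)) =
        c * ∑ i ∈ Finset.range (Q.natDegree + 1), Q.coeff i * s (r + i) := by
      rw [Finset.mul_sum]
      exact Finset.sum_congr rfl fun i _ => by ring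
    rw [h2, h1, mul_zero]

theorem mem_Rec (s : ℕ → ℤ) : s ∈ Rec Q ↔
    ∀ r, ∑ i ∈ Finset.range (Q.natDegree + 1), Q.coeff i * s (r + i) = 0 := Iff.rfl

/-- the first coordinates -/
def res : Rec Q →ₗ[ℤ] (Fin Q.natDegree → ℤ) where
  toFun s := fun j => (s : ℕ → ℤ) j
  map_add' _ _ := rfl
  map_smul' _ _ := rfl

theorem res_injective (hQ : Q ≠ 0) : Function.Injective (res Q) := by
  rw [← LinearMap.ker_eq_bot, LinearMap.ker_eq_bot']
  intro s hs
  apply Subtype.ext
  funext r
  change (s : ℕ → ℤ) r = 0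
  induction r using Nat.strong_induction_on with
  | _ r ih =>
    by_cases hr : r < Q.natDegree
    · exact congrFun hs ⟨r, hr⟩
    · have h1 := (mem_Rec Q s).1 s.2 (r - Q.natDegree)
      rw [Finset.sum_range_succ] at h1
      have h2 : ∑ i ∈ Finset.range Q.natDegree,
          Q.coeff i * (s : ℕ → ℤ) (r - Q.natDegree + i) = 0 :=
        Finset.sum_eq_zero fun i hi => by
          rw [Finset.mem_range] at hi
          rw [ih (r - Q.natDegree + i) (by omega), mul_zero]
      rw [h2, zero_add, Nat.sub_add_cancel (not_lt.1 hr)] at h1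
      have h3 : Q.coeff Q.natDegree ≠ 0 := by
        rw [coeff_natDegree]
        exact leadingCoeff_ne_zero.2 hQ
      exact (mul_eq_zero.1 h1).resolve_left h3

/-- the shift -/
def sh : Rec Q →ₗ[ℤ] Rec Q where
  toFun s := ⟨fun r => (s : ℕ → ℤ) (r + 1), fun r => by
    have h1 := (mem_Rec Q s).1 s.2 (r + 1)
    rw [← h1]
    refine Finset.sum_congr rfl fun i _ => ?_
    change Q.coeff i * (s : ℕ → ℤ) (r + i + 1) = _
    rw [show r + i + 1 = r + 1 + i by ring]⟩
  map_add' _ _ := rfl
  map_smul' _ _ := rfl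

theorem sh_pow (s : Rec Q) (i r : ℕ) : (((sh Q) ^ i) s : ℕ → ℤ) r = (s : ℕ → ℤ) (r + i) := by
  induction i generalizing r with
  | zero => simp
  | succ i ih =>
    rw [pow_succ', Module.End.mul_apply]
    change (((sh Q) ^ i) s : ℕ → ℤ) (r + 1) = _
    rw [ih, show r + 1 + i = r + (i + 1) by ring]

/-- **Fatou's lemma.** -/
theorem exists_monic (hQ : Q ≠ 0) {s : ℕ → ℤ} (hs : s ∈ Rec Q) :
    ∃ R : ℤ[X], R.Monic ∧ s ∈ Rec R := by
  have hfin : Module.Finite ℤ (Rec Q) := Module.Finite.of_injective (res Q) (res_injective Q hQ)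
  obtain ⟨R, hR, h0⟩ := LinearMap.exists_monic_and_aeval_eq_zero ℤ (sh Q)
  refine ⟨R, hR, fun r => ?_⟩
  have h1 := congrArg (fun f => ((f ⟨s, hs⟩ : Rec Q) : ℕ → ℤ) r) h0
  simp only [Polynomial.aeval_eq_sum_range, LinearMap.sum_apply, LinearMap.smul_apply,
    Submodule.coe_sum, Finset.sum_apply, Submodule.coe_smul, Pi.smul_apply, sh_pow,
    smul_eq_mul, LinearMap.zero_apply, ZeroMemClass.coe_zero, Pi.zero_apply] at h1
  exact h1

end

/-! ### The null polynomials -/

section
variable {k : ℕ → ℤ} {N : ℝ}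

/-- the functional -/
noncomputable abbrev LL (k : ℕ → ℤ) : ℝ[X] →ₗ[ℝ] ℝ := Lk fun r => (k r : ℝ)

variable (hN : 0 ≤ N)
  (hpos : ∀ f : ℝ[X], (∀ x : ℝ, |x| ≤ N → 0 ≤ f.eval x) → 0 ≤ LL k f)

include hpos in
theorem sq_pos (p : ℝ[X]) : 0 ≤ LL k (p * p) := hpos _ fun x _ => by
  rw [eval_mul]
  exact mul_self_nonneg _

include hpos in
/-- a null polynomial is orthogonal to all polynomials -/
theorem null_mul {p : ℝ[X]} (hp : LL k (p * p) = 0) (q : ℝ[X]) : LL k (p * q) = 0 := by
  by_contra hne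
  set a := LL k (p * q) with ha
  set b := LL k (q * q) with hb
  have h1 : ∀ c : ℝ, 0 ≤ 2 * c * a + b := by
    intro c
    have h2 := sq_pos hpos (C c * p + q)
    have e : (C c * p + q) * (C c * p + q) = (c * c) • (p * p) + (2 * c) • (p * q) + q * q := by
      rw [smul_eq_C_mul, smul_eq_C_mul, C_mul, C_mul]
      have : (C 2 : ℝ[X]) = 2 := rfl
      rw [this]
      ring
    rw [e, map_add, map_add, map_smul, map_smul, hp, smul_eq_mul, smul_eq_mul, mul_zero,
      zero_add] at h2
    exact h2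
  have h3 := h1 (-(b + 1) / (2 * a))
  have h4 : 2 * (-(b + 1) / (2 * a)) * a + b = -1 := by
    field_simp
    ring
  rw [h4] at h3
  linarith

include hpos in
theorem null_ideal {p : ℝ[X]} (hp : LL k (p * p) = 0) (q : ℝ[X]) :
    LL k ((p * q) * (p * q)) = 0 := by
  have e : (p * q) * (p * q) = p * (q * (p * q)) := by ring
  rw [e]
  exact null_mul hpos hp _

include hpos in
theorem null_sub {p q : ℝ[X]} (hp : LL k (p * p) = 0) (hq : LL k (q * q) = 0) :
    LL k ((p - q) * (p - q)) = 0 := by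
  have e : (p - q) * (p - q) = p * (p - q) - q * (p - q) := by ring
  rw [e, map_sub, null_mul hpos hp, null_mul hpos hq, sub_zero]

/-- an integral sequence with a recurrence gives a null polynomial -/
theorem null_of_rec {R : ℤ[X]} (hR : k ∈ Rec R) :
    LL k (R.map (Int.castRingHom ℝ) * R.map (Int.castRingHom ℝ)) = 0 := by
  have h1 : ∀ r : ℕ, LL k (R.map (Int.castRingHom ℝ) * X ^ r) = 0 := by
    intro r
    have h2 := (mem_Rec R k).1 hR r
    have h3 : R.map (Int.castRingHom ℝ) * X ^ r =
        ∑ i ∈ Finset.range (R.natDegree + 1), monomial (i + r) ((R.coeff i : ℤ) : ℝ) := by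
      conv_lhs => rw [Polynomial.as_sum_range' (R.map (Int.castRingHom ℝ)) (R.natDegree + 1)
        (lt_of_le_of_lt natDegree_map_le (Nat.lt_succ_self _))]
      rw [Finset.sum_mul]
      refine Finset.sum_congr rfl fun i _ => ?_
      rw [coeff_map, monomial_mul_X_pow]
      rfl
    rw [h3, map_sum]
    have h4 : ∑ i ∈ Finset.range (R.natDegree + 1),
        LL k (monomial (i + r) ((R.coeff i : ℤ) : ℝ)) =
        ((∑ i ∈ Finset.range (R.natDegree + 1), R.coeff i * k (r + i) : ℤ) : ℝ) := by
      push_cast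
      refine Finset.sum_congr rfl fun i _ => ?_
      rw [Lk_monomial, add_comm i r]
    rw [h4, h2]
    simp
  set p := R.map (Int.castRingHom ℝ) with hp
  have h2 : p * p = ∑ i ∈ Finset.range (p.natDegree + 1), p.coeff i • (p * X ^ i) := by
    conv_lhs => rw [Polynomial.as_sum_range p]
    rw [← Polynomial.as_sum_range p, mul_comm]
    conv_lhs => enter [1]; rw [Polynomial.as_sum_range p]
    rw [Finset.sum_mul]
    refine Finset.sum_congr rfl fun i _ => ?_
    rw [← C_mul_X_pow_eq_monomial, smul_eq_C_mul]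
    ring
  rw [h2, map_sum]
  refine Finset.sum_eq_zero fun i _ => ?_
  rw [map_smul, h1, smul_zero]

include hpos in
/-- a null polynomial with integral coefficients gives a recurrence -/
theorem rec_of_null {Q : ℤ[X]}
    (hQ : LL k (Q.map (Int.castRingHom ℝ) * Q.map (Int.castRingHom ℝ)) = 0) : k ∈ Rec Q := by
  intro r
  have h1 := null_mul hpos hQ (X ^ r)
  have h3 : Q.map (Int.castRingHom ℝ) * X ^ r =
      ∑ i ∈ Finset.range (Q.natDegree + 1), monomial (i + r) ((Q.coeff i : ℤ) : ℝ) := by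
    conv_lhs => rw [Polynomial.as_sum_range' (Q.map (Int.castRingHom ℝ)) (Q.natDegree + 1)
      (lt_of_le_of_lt natDegree_map_le (Nat.lt_succ_self _))]
    rw [Finset.sum_mul]
    refine Finset.sum_congr rfl fun i _ => ?_
    rw [coeff_map, monomial_mul_X_pow]
    rfl
  rw [h3, map_sum] at h1
  have h4 : ∑ i ∈ Finset.range (Q.natDegree + 1),
      LL k (monomial (i + r) ((Q.coeff i : ℤ) : ℝ)) =
      ((∑ i ∈ Finset.range (Q.natDegree + 1), Q.coeff i * k (r + i) : ℤ) : ℝ) := by
    push_cast
    refine Finset.sum_congr rfl fun i _ => ?_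
    rw [Lk_monomial, add_comm i r]
  rw [h4] at h1
  exact_mod_cast h1

end

end Pool.Agent.Y139.IM
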