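import Pool.Agent.Y139.IM.Fatou

/-! The minimal null polynomial. -/

set_option autoImplicit false

namespace Pool.Agent.Y139.IM

open Polynomial

/-- the polynomial with the coefficients `v` -/
noncomputable def polZ {n : ℕ} (v : Fin n → ℤ) : ℤ[X] := ∑ j, C (v j) * X ^ (j : ℕ)

theorem polZ_coeff {n : ℕ} (v : Fin n → ℤ) (j : Fin n) : (polZ v).coeff j = v j := by
  unfold polZ
  rw [finsetSum_coeff, Finset.sum_eq_single j]
  · rw [coeff_C_mul, coeff_X_pow, if_pos rfl, mul_one]
  · intro i _ hij
    rw [coeff_C_mul, coeff_X_pow, if_neg, mul_zero]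
    intro h
    exact hij (Fin.ext h).symm
  · intro h
    exact absurd (Finset.mem_univ _) h

theorem polZ_natDegree {n : ℕ} (hn : 0 < n) (v : Fin n → ℤ) : (polZ v).natDegree < n := by
  unfold polZ
  refine lt_of_le_of_lt (natDegree_sum_le_of_forall_le (n := n - 1) _ _ fun j _ => ?_)
    (by omega)
  refine (natDegree_C_mul_X_pow_le _ _).trans ?_
  have := j.2
  omega

theorem polZ_ne {n : ℕ} {v : Fin n → ℤ} (hv : v ≠ 0) : polZ v ≠ 0 := by
  intro h
  apply hv
  funext j
  rw [← polZ_coeff v j, h]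
  simp

theorem polZ_map {n : ℕ} (hn : 0 < n) (v : Fin n → ℤ) :
    (polZ v).map (Int.castRingHom ℝ) = pol (fun j : Fin n => (v j : ℝ)) := by
  rw [← pol_coeff ((polZ v).map (Int.castRingHom ℝ))
    (lt_of_le_of_lt natDegree_map_le (polZ_natDegree hn v))]
  congr 1
  funext j
  rw [coeff_map, polZ_coeff]
  rfl

section
variable {k : ℕ → ℤ} {N : ℝ}
  (hpos : ∀ f : ℝ[X], (∀ x : ℝ, |x| ≤ N → 0 ≤ f.eval x) → 0 ≤ LL k f)

include hpos in
/-- a real null polynomial gives an integral null polynomial of at most the same degree -/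
theorem exists_int {p : ℝ[X]} (hp0 : p ≠ 0) (hp : LL k (p * p) = 0) :
    ∃ q : ℤ[X], q ≠ 0 ∧ q.natDegree ≤ p.natDegree ∧
      LL k (q.map (Int.castRingHom ℝ) * q.map (Int.castRingHom ℝ)) = 0 := by
  classical
  set n := p.natDegree + 1 with hn
  set H : Matrix (Fin n) (Fin n) ℤ := Matrix.of fun i j => k (i + j) with hH
  have hR : (H.map (Int.castRingHom ℝ)).mulVec (fun j : Fin n => p.coeff j) = 0 := by
    funext i
    have h1 := null_mul hpos hp (X ^ (i : ℕ))
    have h2 : p * X ^ (i : ℕ) = ∑ j ∈ Finset.range n, monomial (j + i) (p.coeff j) := by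
      conv_lhs => rw [Polynomial.as_sum_range p]
      rw [Finset.sum_mul]
      exact Finset.sum_congr rfl fun j _ => monomial_mul_X_pow _ _ _
    rw [h2, map_sum, Finset.sum_range] at h1
    simp only [Matrix.mulVec, dotProduct, Matrix.map_apply, hH, Matrix.of_apply, Pi.zero_apply]
    rw [← h1]
    refine Finset.sum_congr rfl fun j _ => ?_
    rw [Lk_monomial, add_comm (j : ℕ), mul_comm]
    rfl
  have hv0 : (fun j : Fin n => p.coeff j) ≠ 0 := by
    intro h
    apply hp0
    have h1 := congrFun h ⟨p.natDegree, by omega⟩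
    simp only [Pi.zero_apply, coeff_natDegree] at h1
    exact leadingCoeff_eq_zero.1 h1
  have hdet : (H.map (Int.castRingHom ℝ)).det = 0 :=
    Matrix.exists_mulVec_eq_zero_iff.1 ⟨_, hv0, hR⟩
  have hdet2 : H.det = 0 := by
    have h1 : ((Int.castRingHom ℝ) H.det) = 0 := by
      rw [RingHom.map_det]
      exact hdet
    have h2 : ((H.det : ℤ) : ℝ) = 0 := h1
    exact_mod_cast h2
  obtain ⟨v, hv, hv2⟩ := Matrix.exists_mulVec_eq_zero_iff.2 hdet2
  refine ⟨polZ v, polZ_ne hv, ?_, ?_⟩
  · have := polZ_natDegree (by omega) v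
    omega
  · rw [polZ_map (by omega), pol_mul]
    refine Finset.sum_eq_zero fun i _ => ?_
    have h2 := congrFun hv2 i
    simp only [Matrix.mulVec, dotProduct, hH, Matrix.of_apply, Pi.zero_apply] at h2
    have h3 : ∑ j : Fin n, (v i : ℝ) * (v j : ℝ) * ((k ((i : ℕ) + j) : ℤ) : ℝ) =
        (v i : ℝ) * ((∑ j : Fin n, k (i + j) * v j : ℤ) : ℝ) := by
      push_cast
      rw [Finset.mul_sum]
      exact Finset.sum_congr rfl fun j _ => by ring
    rw [h3, h2]
    simp

include hpos in
/-- **The minimal null polynomial is integral, and its roots are real, simple and at most `N`.** -/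
theorem exists_realRooted {Q : ℤ[X]} (hQ0 : Q ≠ 0)
    (hQ : LL k (Q.map (Int.castRingHom ℝ) * Q.map (Int.castRingHom ℝ)) = 0) :
    ∃ P : ℤ[X], P.Monic ∧ P.natDegree ≤ Q.natDegree ∧
      LL k (P.map (Int.castRingHom ℝ) * P.map (Int.castRingHom ℝ)) = 0 ∧
      (∀ z : ℂ, (P.map (Int.castRingHom ℂ)).eval z = 0 → ∃ x : ℝ, |x| ≤ N ∧ z = x) ∧
      ∀ x : ℝ, ¬ (X - C x) ^ 2 ∣ P.map (Int.castRingHom ℝ) := by
  classical
  -- the minimal degree
  have hex : ∃ d : ℕ, ∃ p : ℝ[X], p ≠ 0 ∧ LL k (p * p) = 0 ∧ p.natDegree = d := by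
    refine ⟨_, Q.map (Int.castRingHom ℝ), ?_, hQ, rfl⟩
    exact (Polynomial.map_ne_zero_iff (RingHom.injective_int (Int.castRingHom ℝ))).2 hQ0
  set d := Nat.find hex with hd
  obtain ⟨p₀, hp₀, hp₀n, hp₀d⟩ := Nat.find_spec hex
  have hmin : ∀ p : ℝ[X], p ≠ 0 → LL k (p * p) = 0 → d ≤ p.natDegree := fun p h1 h2 =>
    Nat.find_min' hex ⟨p, h1, h2, rfl⟩
  obtain ⟨q, hq0, hqd, hqn⟩ := exists_int hpos hp₀ hp₀n
  have hinj : Function.Injective (Int.castRingHom ℝ) := RingHom.injective_int (Int.castRingHom ℝ)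
  have hqd' : q.natDegree = d := by
    refine le_antisymm (hqd.trans hp₀d.le) ?_
    have h1 := hmin _ ((Polynomial.map_ne_zero_iff hinj).2 hq0) hqn
    rwa [natDegree_map_eq_of_injective hinj] at h1
  -- the monic rational polynomial
  set iq : ℤ →+* ℚ := Int.castRingHom ℚ with hiq
  set ir : ℚ →+* ℝ := Rat.castHom ℝ with hir
  have hcomp : ir.comp iq = Int.castRingHom ℝ := RingHom.ext_int _ _
  set l : ℚ := (q.leadingCoeff : ℚ) with hl
  have hl0 : l ≠ 0 := by
    rw [hl]
    exact_mod_cast leadingCoeff_ne_zero.2 hq0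
  set pq : ℚ[X] := C l⁻¹ * q.map iq with hpq
  have hqmap : q.map iq ≠ 0 := (Polynomial.map_ne_zero_iff (RingHom.injective_int iq)).2 hq0
  have hpqm : pq.Monic := by
    rw [Monic, hpq, leadingCoeff_mul, leadingCoeff_C,
      leadingCoeff_map_of_injective (RingHom.injective_int iq)]
    change l⁻¹ * ((q.leadingCoeff : ℤ) : ℚ) = 1
    exact inv_mul_cancel₀ hl0
  have hpqd : pq.natDegree = d := by
    rw [hpq, natDegree_C_mul (inv_ne_zero hl0),
      natDegree_map_eq_of_injective (RingHom.injective_int iq), hqd']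
  have hpqr : pq.map ir = C (ir l⁻¹) * q.map (Int.castRingHom ℝ) := by
    rw [hpq, Polynomial.map_mul, map_C, Polynomial.map_map, hcomp]
  have hpqn : LL k (pq.map ir * pq.map ir) = 0 := by
    have := null_ideal hpos hqn (C (ir l⁻¹))
    rwa [mul_comm (q.map (Int.castRingHom ℝ)), ← hpqr] at this
  -- it divides a monic integral polynomial
  obtain ⟨R, hR, hRk⟩ := exists_monic Q hQ0 (rec_of_null hpos hQ)
  have hRn : LL k ((R.map iq).map ir * (R.map iq).map ir) = 0 := by
    rw [Polynomial.map_map, hcomp]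
    exact null_of_rec hRk
  have hmod : (R.map iq) %ₘ pq = 0 := by
    by_contra hne
    have h1 : (R.map iq) %ₘ pq = R.map iq - pq * ((R.map iq) /ₘ pq) := by
      have := modByMonic_add_div (R.map iq) pq
      exact eq_sub_of_add_eq this
    have h2 : LL k (((R.map iq) %ₘ pq).map ir * ((R.map iq) %ₘ pq).map ir) = 0 := by
      rw [h1, Polynomial.map_sub, Polynomial.map_mul]
      exact null_sub hpos hRn (null_ideal hpos hpqn _)
    have h3 := hmin _ ((Polynomial.map_ne_zero_iff ir.injective).2 hne) h2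
    rw [natDegree_map_eq_of_injective ir.injective] at h3
    by_cases h0 : d = 0
    · have h4 : pq = 1 := hpqm.natDegree_eq_zero.1 (by rw [hpqd, h0])
      rw [h4, modByMonic_one] at hne
      exact hne rfl
    · have h4 := natDegree_modByMonic_lt (R.map iq) hpqm (fun h => by
        rw [h, natDegree_one] at hpqd
        exact h0 hpqd.symm)
      omega
  have hdvd : pq ∣ R.map (algebraMap ℤ ℚ) := by
    have : algebraMap ℤ ℚ = iq := RingHom.ext_int _ _
    rw [this]
    exact (modByMonic_eq_zero_iff_dvd hpqm).1 hmod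
  obtain ⟨P, hP⟩ := IsIntegrallyClosed.eq_map_mul_C_of_dvd ℚ hR hdvd
  rw [hpqm.leadingCoeff, C_1, mul_one] at hP
  have hPi : P.map iq = pq := by
    have : algebraMap ℤ ℚ = iq := RingHom.ext_int _ _
    rw [← this]
    exact hP
  have hPr : P.map (Int.castRingHom ℝ) = pq.map ir := by
    rw [← hPi, Polynomial.map_map, hcomp]
  have hPm : P.Monic := by
    refine Polynomial.monic_of_injective (RingHom.injective_int iq) ?_
    rw [hPi]
    exact hpqm
  set p : ℝ[X] := P.map (Int.castRingHom ℝ) with hp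
  have hpn : LL k (p * p) = 0 := by rw [hPr]; exact hpqn
  have hpm : p.Monic := hPm.map _
  have hpd : p.natDegree = d := by
    rw [hPr, natDegree_map_eq_of_injective ir.injective, hpqd]
  -- a proper factor is not null
  have hfac : ∀ g h : ℝ[X], p = g * h → 1 ≤ g.natDegree → LL k (h * h) ≠ 0 := by
    intro g h hgh hg h0
    have hh : h ≠ 0 := by
      rintro rfl
      rw [mul_zero] at hgh
      exact hpm.ne_zero hgh
    have hg0 : g ≠ 0 := by
      rintro rfl
      rw [zero_mul] at hgh
      exact hpm.ne_zero hgh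
    have h1 := hmin h hh h0
    rw [hgh, natDegree_mul hg0 hh] at hpd
    omega
  have hreal : ∀ x : ℝ, p.eval x = 0 → |x| ≤ N := by
    intro x hx
    by_contra hcon
    rw [not_le] at hcon
    obtain ⟨h, hh⟩ := dvd_iff_isRoot.2 hx
    have h1 := hfac _ _ hh (by rw [natDegree_X_sub_C])
    have h2 : 0 ≤ LL k ((X - C x) * (X - C x) * (h * h) - ((|x| - N) ^ 2) • (h * h)) := by
      refine hpos _ fun y hy => ?_
      rw [eval_sub, eval_smul, eval_mul, eval_mul, eval_mul, eval_sub, eval_X, eval_C,
        smul_eq_mul]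
      have h3 : (|x| - N) ^ 2 ≤ (y - x) * (y - x) := by
        have h4 : |x| - N ≤ |y - x| := by
          have := abs_sub_abs_le_abs_sub x y
          rw [abs_sub_comm] at this
          linarith
        have h5 : 0 ≤ |x| - N := by linarith
        calc (|x| - N) ^ 2 ≤ |y - x| ^ 2 := pow_le_pow_left₀ h5 h4 2
          _ = (y - x) * (y - x) := by rw [sq_abs, pow_two]
      have h6 : 0 ≤ eval y h * eval y h := mul_self_nonneg _
      nlinarith
    rw [map_sub, map_smul, smul_eq_mul] at h2
    have h3 : (X - C x) * (X - C x) * (h * h) = p * p := by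
      rw [hh]
      ring
    rw [h3, hpn, zero_sub] at h2
    have h4 := sq_pos hpos h
    have h5 : 0 < (|x| - N) ^ 2 := by
      have : 0 < |x| - N := by linarith
      positivity
    have h6 : 0 < LL k (h * h) := lt_of_le_of_ne h4 (Ne.symm h1)
    have := mul_pos h5 h6
    linarith
  have hPQ : P.natDegree ≤ Q.natDegree := by
    have h1 := hmin _ ((Polynomial.map_ne_zero_iff hinj).2 hQ0) hQ
    rw [natDegree_map_eq_of_injective hinj] at h1
    rw [hp, natDegree_map_eq_of_injective hinj] at hpd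
    omega
  refine ⟨P, hPm, hPQ, hpn, fun z hz => ?_, fun x hx => ?_⟩
  · by_cases him : z.im = 0
    · have hz' : z = (z.re : ℂ) := Complex.ext rfl (by simpa using him)
      refine ⟨z.re, hreal _ ?_, hz'⟩
      have h1 : (p.map Complex.ofRealHom).eval z = 0 := by
        rw [hp, Polynomial.map_map]
        have : Complex.ofRealHom.comp (Int.castRingHom ℝ) = Int.castRingHom ℂ :=
          RingHom.ext_int _ _
        rw [this]
        exact hz
      rw [hz'] at h1
      have h2 : (p.map Complex.ofRealHom).eval ((z.re : ℝ) : ℂ) = ((p.eval z.re : ℝ) : ℂ) := by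
        rw [eval_map]
        exact Polynomial.eval₂_at_apply Complex.ofRealHom z.re
      rw [h2] at h1
      exact_mod_cast h1
    · exfalso
      have h1 : aeval z p = 0 := by
        rw [aeval_def, hp, eval₂_map]
        have : (algebraMap ℝ ℂ).comp (Int.castRingHom ℝ) = Int.castRingHom ℂ :=
          RingHom.ext_int _ _
        rw [this, ← eval_map]
        exact hz
      obtain ⟨h, hh⟩ := Polynomial.quadratic_dvd_of_aeval_eq_zero_im_ne_zero p h1 him
      set g : ℝ[X] := X ^ 2 - C (2 * z.re) * X + C (‖z‖ ^ 2) with hg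
      have hgd : g.natDegree = 2 := by
        rw [hg]
        compute_degree!
      have h2 := hfac g h hh (by rw [hgd]; norm_num)
      have h3 : 0 ≤ LL k (g * g * (h * h) - (z.im ^ 4) • (h * h)) := by
        refine hpos _ fun y _ => ?_
        rw [eval_sub, eval_smul, eval_mul, eval_mul, eval_mul, smul_eq_mul]
        have e1 : eval y g = (y - z.re) ^ 2 + z.im ^ 2 := by
          rw [hg, eval_add, eval_sub, eval_mul, eval_pow, eval_X, eval_C, eval_C,
            ← Complex.normSq_eq_norm_sq, Complex.normSq_apply]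
          ring
        rw [e1]
        have h4 : z.im ^ 4 ≤ ((y - z.re) ^ 2 + z.im ^ 2) * ((y - z.re) ^ 2 + z.im ^ 2) := by
          nlinarith [sq_nonneg (y - z.re), sq_nonneg z.im, sq_nonneg ((y - z.re) * z.im),
            mul_nonneg (sq_nonneg (y - z.re)) (sq_nonneg z.im)]
        have h5 : 0 ≤ eval y h * eval y h := mul_self_nonneg _
        nlinarith
      rw [map_sub, map_smul, smul_eq_mul] at h3
      have h4 : g * g * (h * h) = p * p := by
        rw [hh]
        ring
      rw [h4, hpn, zero_sub] at h3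
      have h5 := sq_pos hpos h
      have h6 : 0 < z.im ^ 4 := by positivity
      have h7 : 0 < LL k (h * h) := lt_of_le_of_ne h5 (Ne.symm h2)
      have := mul_pos h6 h7
      linarith
  · obtain ⟨h, hh'⟩ := hx
    have hh : p = (X - C x) ^ 2 * h := hh'
    have h1 : p = (X - C x) * ((X - C x) * h) := by
      rw [hh]
      ring
    have h2 := hfac _ _ h1 (by rw [natDegree_X_sub_C])
    apply h2
    have h3 : (X - C x) * h * ((X - C x) * h) = p * h := by
      rw [hh]
      ring
    rw [h3]
    exact null_mul hpos hpn h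

end

end Pool.Agent.Y139.IM
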