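import Mathlib

/-!
# Integral moments and Hankel determinants

A positive functional on the real polynomials with integral moments: if it is small on the squares of
monic polynomials, the Hankel determinant vanishes.
-/

set_option autoImplicit false

namespace Pool.Agent.Y139.IM

open Polynomial Matrix

/-- the linear functional with the moments `k` -/
noncomputable def Lk (k : ℕ → ℝ) : ℝ[X] →ₗ[ℝ] ℝ := (Polynomial.basisMonomials ℝ).constr ℝ k

theorem Lk_monomial (k : ℕ → ℝ) (r : ℕ) (c : ℝ) : Lk k (monomial r c) = c * k r := by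
  have h1 : (monomial r c : ℝ[X]) = c • (Polynomial.basisMonomials ℝ) r := by
    rw [Polynomial.coe_basisMonomials]
    simp [Polynomial.smul_monomial]
  rw [h1, map_smul]
  unfold Lk
  rw [Module.Basis.constr_basis, smul_eq_mul]

theorem Lk_pow (k : ℕ → ℝ) (r : ℕ) : Lk k (X ^ r) = k r := by
  rw [← Polynomial.monomial_one_right_eq_X_pow, Lk_monomial, one_mul]

theorem Lk_sum (k : ℕ → ℝ) (p : ℝ[X]) {n : ℕ} (hn : p.natDegree < n) :
    Lk k p = ∑ r ∈ Finset.range n, p.coeff r * k r := by
  conv_lhs => rw [Polynomial.as_sum_range' p n hn]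
  rw [map_sum]
  exact Finset.sum_congr rfl fun r _ => Lk_monomial _ _ _

/-- the polynomial with the coefficients `x` -/
noncomputable def pol {n : ℕ} (x : Fin n → ℝ) : ℝ[X] := ∑ j, C (x j) * X ^ (j : ℕ)

theorem pol_natDegree {n : ℕ} (hn : 0 < n) (x : Fin n → ℝ) : (pol x).natDegree < n := by
  unfold pol
  refine lt_of_le_of_lt (Polynomial.natDegree_sum_le_of_forall_le (n := n - 1) _ _
    fun j _ => ?_) (by omega)
  refine (Polynomial.natDegree_C_mul_X_pow_le _ _).trans ?_
  have := j.2
  omega

theorem pol_mul {n : ℕ} (x y : Fin n → ℝ) (k : ℕ → ℝ) :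
    Lk k (pol x * pol y) = ∑ i, ∑ j, x i * y j * k (i + j) := by
  unfold pol
  rw [Finset.sum_mul_sum, map_sum]
  refine Finset.sum_congr rfl fun i _ => ?_
  rw [map_sum]
  refine Finset.sum_congr rfl fun j _ => ?_
  have : (C (x i) * X ^ (i : ℕ)) * (C (y j) * X ^ (j : ℕ)) =
      monomial ((i : ℕ) + (j : ℕ)) (x i * y j) := by
    rw [← Polynomial.C_mul_X_pow_eq_monomial, C_mul, pow_add]
    ring
  rw [this, Lk_monomial]

theorem pol_coeff {n : ℕ} (p : ℝ[X]) (hp : p.natDegree < n) :
    pol (fun j : Fin n => p.coeff j) = p := by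
  unfold pol
  conv_rhs => rw [Polynomial.as_sum_range' p n hp]
  rw [Finset.sum_range]
  exact Finset.sum_congr rfl fun j _ => Polynomial.C_mul_X_pow_eq_monomial

/-- a positive semidefinite real matrix of small trace has determinant less than one -/
theorem det_lt_one {n : ℕ} (A : Matrix (Fin n) (Fin n) ℝ) (hA : A.PosSemidef)
    (ht : A.trace < n) : 0 ≤ A.det ∧ A.det < 1 := by
  have h1 := hA.1.det_eq_prod_eigenvalues
  have h2 := hA.1.trace_eq_sum_eigenvalues
  simp only [RCLike.ofReal_real_eq_id, id_eq] at h1 h2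
  have h0 : ∀ i, 0 ≤ hA.1.eigenvalues i := fun i => hA.eigenvalues_nonneg i
  rw [h1]
  refine ⟨Finset.prod_nonneg fun i _ => h0 i, ?_⟩
  have h3 : ∏ i, hA.1.eigenvalues i ≤ ∏ i, Real.exp (hA.1.eigenvalues i - 1) :=
    Finset.prod_le_prod (fun i _ => h0 i) fun i _ => by
      have := Real.add_one_le_exp (hA.1.eigenvalues i - 1)
      linarith
  refine h3.trans_lt ?_
  rw [← Real.exp_sum, Finset.sum_sub_distrib, ← h2, Finset.sum_const, Finset.card_univ,
    Fintype.card_fin, nsmul_eq_mul, mul_one]
  rw [← Real.exp_zero]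
  exact Real.exp_lt_exp.2 (by linarith)

/-- **Small values on the squares of monic polynomials and integral moments.** -/
theorem exists_kernel (k : ℕ → ℤ) (n : ℕ)
    (hpos : ∀ p : ℝ[X], p.natDegree < n → 0 ≤ Lk (fun r => (k r : ℝ)) (p * p))
    (P : Fin n → ℝ[X]) (hP : ∀ j, (P j).Monic ∧ (P j).natDegree = j)
    (hsum : ∑ j, Lk (fun r => (k r : ℝ)) (P j * P j) < n) :
    ∃ v : Fin n → ℤ, v ≠ 0 ∧ ∀ i : Fin n, ∑ j : Fin n, v j * k (i + j) = 0 := by
  classical
  have hn : 0 < n := by
    by_contra h0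
    have : n = 0 := by omega
    subst this
    simp at hsum
  set κ : ℕ → ℝ := fun r => (k r : ℝ) with hκ
  set H : Matrix (Fin n) (Fin n) ℤ := Matrix.of fun i j => k (i + j) with hH
  set HR : Matrix (Fin n) (Fin n) ℝ := H.map (Int.castRingHom ℝ) with hHR
  have hHRe : ∀ i j, HR i j = κ (i + j) := fun i j => by
    simp [hHR, hH, hκ]
  have hquad : ∀ x y : Fin n → ℝ, x ⬝ᵥ HR.mulVec y = Lk κ (pol x * pol y) := by
    intro x y
    rw [pol_mul]
    simp only [dotProduct, mulVec, Finset.mul_sum, hHRe]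
    refine Finset.sum_congr rfl fun i _ => Finset.sum_congr rfl fun j _ => ?_
    ring
  have hHpsd : HR.PosSemidef := by
    refine Matrix.PosSemidef.of_dotProduct_mulVec_nonneg ?_ fun x => ?_
    · ext i j
      simp [hHRe, add_comm]
    · have h1 : star x = x := by ext; simp
      rw [h1, hquad]
      exact hpos _ (pol_natDegree hn x)
  set U : Matrix (Fin n) (Fin n) ℝ := Matrix.of fun j i => (P j).coeff i with hU
  have hdetU : U.det = 1 := by
    rw [Matrix.det_of_isLowerTriangular U (fun i j hij => by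
      simp only [hU, Matrix.of_apply]
      refine Polynomial.coeff_eq_zero_of_natDegree_lt ?_
      rw [(hP i).2]
      exact hij)]
    refine Finset.prod_eq_one fun i _ => ?_
    simp only [hU, Matrix.of_apply]
    have h1 := (hP i).1.coeff_natDegree
    rw [(hP i).2] at h1
    exact h1
  set A := U * HR * Uᴴ with hA
  have hApsd : A.PosSemidef := hHpsd.mul_mul_conjTranspose_same U
  have hAe : ∀ j, A j j = Lk κ (P j * P j) := by
    intro j
    have h1 : pol (fun i : Fin n => (P j).coeff i) = P j := pol_coeff _ (by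
      rw [(hP j).2]
      exact j.2)
    have h2 := hquad (fun i : Fin n => (P j).coeff i) (fun i : Fin n => (P j).coeff i)
    rw [h1] at h2
    rw [← h2, hA]
    simp only [Matrix.mul_apply, dotProduct, mulVec, Finset.sum_mul, Finset.mul_sum,
      Matrix.conjTranspose_apply, star_trivial]
    rw [Finset.sum_comm]
    refine Finset.sum_congr rfl fun i _ => Finset.sum_congr rfl fun m _ => ?_
    simp only [hU, Matrix.of_apply]
    ring
  have htr : A.trace < n := by
    rw [Matrix.trace]
    simp only [Matrix.diag_apply, hAe]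
    exact hsum
  obtain ⟨h0, h1⟩ := det_lt_one A hApsd htr
  have hdetA : A.det = (H.det : ℝ) := by
    rw [hA, Matrix.det_mul, Matrix.det_mul, Matrix.det_conjTranspose, hdetU, star_one, one_mul,
      mul_one, hHR]
    exact (RingHom.map_det (Int.castRingHom ℝ) H).symm
  rw [hdetA] at h0 h1
  have h3 : H.det = 0 := by
    have h4 : 0 ≤ H.det := by exact_mod_cast h0
    have h5 : H.det < 1 := by exact_mod_cast h1
    omega
  obtain ⟨v, hv, hv2⟩ := Matrix.exists_mulVec_eq_zero_iff.2 h3
  refine ⟨v, hv, fun i => ?_⟩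
  have h6 := congrFun hv2 i
  simp only [mulVec, dotProduct, hH, Matrix.of_apply, Pi.zero_apply] at h6
  rw [← h6]
  refine Finset.sum_congr rfl fun j _ => ?_
  ring

end Pool.Agent.Y139.IM
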