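import Pool.Agent.Y139.IM.Small
import Pool.Agent.Y139.SM.Gen

/-! The mean values of the powers of a bounded function on the primes. -/

set_option autoImplicit false

namespace Pool.Agent.Y139.IM

open Complex Filter Topology NumberField IsDedekindDomain
  Pool.Agent.W401.Cheb Pool.Agent.W540.BE Pool.Agent.W353.L1 Polynomial
open Pool.Agent.H341R2 (lam lam_tendsto)

section
variable {K : Type} [Field K] [NumberField K]

/-- the mean value of `φ` (at `ε`) -/
noncomputable def mean (φ : HeightOneSpectrum (𝓞 K) → ℝ) (ε : ℝ) : ℝ :=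
  (EP (nm K) ε φ) / lam ε

variable {T : HeightOneSpectrum (𝓞 K) → ℝ} {N : ℝ} (hN : 0 ≤ N) (hT : ∀ v, |T v| ≤ N)

include hN hT

/-- the mean value of a polynomial -/
theorem mean_pol {k : ℕ → ℝ} {M : ℕ}
    (hk : ∀ r < M, Tendsto (mean fun v => T v ^ r) (𝓝[>] 0) (𝓝 (k r))) (p : ℝ[X])
    (hp : p.natDegree < M) :
    Tendsto (mean fun v => p.eval (T v)) (𝓝[>] 0) (𝓝 (Lk k p)) := by
  classical
  have h1 : Tendsto (fun ε => ∑ r ∈ Finset.range M, p.coeff r * mean (fun v => T v ^ r) ε)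
      (𝓝[>] 0) (𝓝 (∑ r ∈ Finset.range M, p.coeff r * k r)) :=
    tendsto_finsetSum _ fun r hr => (hk r (Finset.mem_range.1 hr)).const_mul _
  rw [← Lk_sum k p hp] at h1
  refine h1.congr' ?_
  filter_upwards [self_mem_nhdsWithin] with ε hε
  unfold mean
  have h2 : (EP (nm K) ε fun v => p.eval (T v)) =
      ∑ r ∈ Finset.range M, EP (nm K) ε fun v => p.coeff r * T v ^ r := by
    rw [← EP_sum normSys hε (Finset.range M) (fun r v => p.coeff r * T v ^ r)
      (fun r => |p.coeff r| * N ^ r) (by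
        intro r _ v
        rw [abs_mul, abs_pow]
        exact mul_le_mul_of_nonneg_left (pow_le_pow_left₀ (abs_nonneg _) (hT v) r)
          (abs_nonneg _))]
    congr 1
    funext v
    exact Polynomial.eval_eq_sum_range' hp _
  rw [h2, Finset.sum_div]
  refine Finset.sum_congr rfl fun r _ => ?_
  rw [EP_const_mul, mul_div_assoc]

theorem pos_of_mean {k : ℕ → ℝ} {n : ℕ}
    (hk : ∀ r < 2 * n - 1, Tendsto (mean fun v => T v ^ r) (𝓝[>] 0) (𝓝 (k r))) (p : ℝ[X])
    (hp : p.natDegree < n) : 0 ≤ Lk k (p * p) := by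
  have h1 : (p * p).natDegree < 2 * n - 1 := by
    refine lt_of_le_of_lt (natDegree_mul_le) ?_
    omega
  refine ge_of_tendsto (mean_pol hN hT hk (p * p) h1) ?_
  filter_upwards [self_mem_nhdsWithin, lam_tendsto.eventually_gt_atTop 0] with ε hε hε'
  refine div_nonneg (EP_nonneg fun v => ?_) hε'.le
  rw [eval_mul]
  exact mul_self_nonneg _

open Classical in
/-- if the values are often in `S`, polynomials that are small on `S` have a small mean square -/
theorem small_of_mean {k : ℕ → ℝ} {n : ℕ}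
    (hk : ∀ r < 2 * n - 1, Tendsto (mean fun v => T v ^ r) (𝓝[>] 0) (𝓝 (k r))) (p : ℝ[X])
    (hp : p.natDegree < n) {S : Set ℝ} {b B δ : ℝ} (hb : 0 ≤ b)
    (hbS : ∀ x ∈ S, |x| ≤ N → |p.eval x| ≤ b) (hB : ∀ x, |x| ≤ N → |p.eval x| ≤ B)
    (hδ : ∃ᶠ ε : ℝ in 𝓝[>] 0, mean (fun v => if T v ∈ S then 0 else 1) ε < δ) :
    Lk k (p * p) ≤ b ^ 2 + B ^ 2 * δ := by
  have h1 : (p * p).natDegree < 2 * n - 1 := by
    refine lt_of_le_of_lt (natDegree_mul_le) ?_
    omega
  have hlim := mean_pol hN hT hk (p * p) h1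
  refine le_of_forall_pos_le_add fun η hη => ?_
  have hB0 : 0 ≤ B := (abs_nonneg _).trans (hB 0 (by rw [abs_zero]; exact hN))
  have hone : Tendsto (fun ε : ℝ => b ^ 2 * ((EP (nm K) ε fun _ => 1) / lam ε)) (𝓝[>] 0)
      (𝓝 (b ^ 2 * 1)) := (EP_one K).const_mul _
  have hev : ∀ᶠ ε : ℝ in 𝓝[>] 0, (0 < ε ∧ 0 < lam ε) ∧
      b ^ 2 * ((EP (nm K) ε fun _ => 1) / lam ε) < b ^ 2 * 1 + η / 2 ∧
      Lk k (p * p) - η / 2 < mean (fun v => (p * p).eval (T v)) ε := by
    filter_upwards [self_mem_nhdsWithin, lam_tendsto.eventually_gt_atTop 0,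
      hone.eventually_lt_const (lt_add_of_pos_right _ (half_pos hη)),
      hlim.eventually_const_lt (sub_lt_self _ (half_pos hη))] with ε g1 g2 g3 g4
    exact ⟨⟨g1, g2⟩, g3, g4⟩
  obtain ⟨ε, hε1, ⟨hε, hlam⟩, h3, h4⟩ := (hδ.and_eventually hev).exists
  have h5 : ∀ v, |(p * p).eval (T v)| ≤ b ^ 2 * 1 + B ^ 2 * (if T v ∈ S then 0 else 1) := by
    intro v
    rw [eval_mul, abs_mul]
    split_ifs with h
    · have := hbS _ h (hT v)
      have h0 := abs_nonneg (p.eval (T v))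
      nlinarith
    · have := hB _ (hT v)
      have h0 := abs_nonneg (p.eval (T v))
      nlinarith [sq_nonneg b]
  have b1 : ∀ v : HeightOneSpectrum (𝓞 K), |b ^ 2 * (1 : ℝ)| ≤ b ^ 2 := fun v => by
    rw [mul_one, abs_of_nonneg (sq_nonneg _)]
  have b2 : ∀ v, |B ^ 2 * (if T v ∈ S then (0 : ℝ) else 1)| ≤ B ^ 2 := fun v => by
    rw [abs_mul, abs_of_nonneg (sq_nonneg B)]
    split_ifs
    · rw [abs_zero, mul_zero]
      exact sq_nonneg _
    · rw [abs_one, mul_one]
  have h6 := EP_abs_le (F := K) (φ := fun v => (p * p).eval (T v))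
    (ψ := fun v => b ^ 2 * 1 + B ^ 2 * (if T v ∈ S then 0 else 1)) (B := b ^ 2 + B ^ 2)
    (fun v => (abs_add_le _ _).trans (add_le_add (b1 v) (b2 v))) h5 hε
  rw [EP_add normSys hε b1 b2, EP_const_mul, EP_const_mul] at h6
  have h7 : mean (fun v => (p * p).eval (T v)) ε ≤ b ^ 2 * ((EP (nm K) ε fun _ => 1) / lam ε) +
      B ^ 2 * mean (fun v => if T v ∈ S then 0 else 1) ε := by
    unfold mean
    rw [← mul_div_assoc, ← mul_div_assoc, ← add_div]
    exact div_le_div_of_nonneg_right ((le_abs_self _).trans h6) hlam.le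
  have h8 : B ^ 2 * mean (fun v => if T v ∈ S then 0 else 1) ε ≤ B ^ 2 * δ :=
    mul_le_mul_of_nonneg_left hε1.le (sq_nonneg _)
  linarith

end

open Classical in
/-- **Integral moments: positive density outside a set of small capacity.** -/
theorem dichotomy {S : Set ℝ} (hS : SmallCapacity S) (N : ℝ) (hN : 0 ≤ N) :
    ∃ (n : ℕ) (δ : ℝ), 0 < n ∧ 0 < δ ∧ ∀ (K : Type) [Field K] [NumberField K]
      (T : HeightOneSpectrum (𝓞 K) → ℝ), (∀ v, |T v| ≤ N) → ∀ k : ℕ → ℤ,
      (∀ r < 2 * n - 1, Tendsto (mean fun v => T v ^ r) (𝓝[>] 0) (𝓝 (k r : ℝ))) →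
      (∀ᶠ ε : ℝ in 𝓝[>] 0, δ ≤ mean (fun v => if T v ∈ S then 0 else 1) ε) ∨
      ∃ Q : ℤ[X], Q ≠ 0 ∧ Q.natDegree < n ∧
        Tendsto (mean fun v => (Q.map (Int.castRingHom ℝ)).eval (T v) ^ 2) (𝓝[>] 0) (𝓝 0) := by
  obtain ⟨n, δ, P, b, B, hn, hδ, hB0, hP, hb0, hbS, hB, hsum⟩ := exists_data hS N
  refine ⟨n, δ, hn, hδ, fun K _ _ T hT k hk => ?_⟩
  by_cases hdens : ∀ᶠ ε : ℝ in 𝓝[>] 0, δ ≤ mean (fun v => if T v ∈ S then 0 else 1) ε
  · exact Or.inl hdens
  right
  have hfreq : ∃ᶠ ε : ℝ in 𝓝[>] 0, mean (fun v => if T v ∈ S then 0 else 1) ε < δ := by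
    rw [Filter.not_eventually] at hdens
    exact hdens.mono fun ε h => not_le.1 h
  obtain ⟨v, hv, hker⟩ := exists_kernel k n
    (fun p hp => pos_of_mean hN hT (k := fun r => (k r : ℝ)) hk p hp) (fun j => P j)
    (fun j => hP j) (by
      refine lt_of_le_of_lt (Finset.sum_le_sum (f := fun j : Fin n =>
        Lk (fun r => (k r : ℝ)) (P j * P j)) (g := fun j : Fin n => b j ^ 2 + B ^ 2 * δ)
        fun j _ => small_of_mean hN hT hk (P j) (by
          rw [(hP j).2]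
          exact j.2) (hb0 j) (hbS j j.2) (hB j j.2) hfreq) ?_
      rw [Fin.sum_univ_eq_sum_range (fun j => b j ^ 2 + B ^ 2 * δ) n]
      exact hsum)
  set Q : ℤ[X] := ∑ j, C (v j) * X ^ (j : ℕ) with hQ
  have hcoeff : ∀ j : Fin n, Q.coeff j = v j := by
    intro j
    rw [hQ, finsetSum_coeff, Finset.sum_eq_single j]
    · rw [coeff_C_mul, coeff_X_pow, if_pos rfl, mul_one]
    · intro i _ hij
      rw [coeff_C_mul, coeff_X_pow, if_neg, mul_zero]
      intro h
      exact hij (Fin.ext h).symm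
    · intro h
      exact absurd (Finset.mem_univ _) h
  have hQ0 : Q ≠ 0 := by
    intro h
    apply hv
    funext j
    rw [← hcoeff j, h]
    simp
  have hdeg : Q.natDegree < n := by
    rw [hQ]
    refine lt_of_le_of_lt (natDegree_sum_le_of_forall_le (n := n - 1) _ _ fun j _ => ?_)
      (by omega)
    refine (natDegree_C_mul_X_pow_le _ _).trans ?_
    have := j.2
    omega
  refine ⟨Q, hQ0, hdeg, ?_⟩
  set q : ℝ[X] := Q.map (Int.castRingHom ℝ) with hq
  have hqdeg : q.natDegree < n := lt_of_le_of_lt natDegree_map_le hdeg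
  have hqpol : q = pol (fun j : Fin n => (v j : ℝ)) := by
    rw [← pol_coeff q hqdeg]
    congr 1
    funext j
    rw [hq, coeff_map, hcoeff]
    rfl
  have h1 : (q * q).natDegree < 2 * n - 1 := by
    refine lt_of_le_of_lt (natDegree_mul_le) ?_
    omega
  have hlim := mean_pol hN hT (k := fun r => (k r : ℝ)) hk (q * q) h1
  have h0 : Lk (fun r => (k r : ℝ)) (q * q) = 0 := by
    rw [hqpol, pol_mul]
    refine Finset.sum_eq_zero fun i _ => ?_
    have h2 := hker i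
    have h3 : ∑ j : Fin n, (v i : ℝ) * (v j : ℝ) * ((k ((i : ℕ) + j) : ℤ) : ℝ) =
        (v i : ℝ) * ((∑ j : Fin n, v j * k (i + j) : ℤ) : ℝ) := by
      push_cast
      rw [Finset.mul_sum]
      exact Finset.sum_congr rfl fun j _ => by ring
    rw [h3, h2]
    simp
  rw [h0] at hlim
  refine hlim.congr fun ε => ?_
  congr 1
  funext w
  rw [eval_mul, pow_two]

end Pool.Agent.Y139.IM
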