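import Pool.Agent.Y139.IM.Mean

/-! The quantitative version: moments near integers. -/

set_option autoImplicit false

namespace Pool.Agent.Y139.IM

open Polynomial Matrix Filter Topology

/-- the Hankel matrix -/
noncomputable def Hk (n : ℕ) (μ : ℕ → ℝ) : Matrix (Fin n) (Fin n) ℝ := Matrix.of fun i j => μ (i + j)

theorem Hk_apply (n : ℕ) (μ : ℕ → ℝ) (i j : Fin n) : Hk n μ i j = μ (i + j) := rfl

/-- the Hankel determinant of a positive functional that is small on monic polynomials -/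
theorem Hk_det {n : ℕ} (μ : ℕ → ℝ) {c : ℝ}
    (hpos : ∀ p : ℝ[X], p.natDegree < n → 0 ≤ Lk μ (p * p))
    (P : Fin n → ℝ[X]) (hP : ∀ j, (P j).Monic ∧ (P j).natDegree = j)
    (hsum : ∑ j, Lk μ (P j * P j) ≤ c) (hn : 0 < n) :
    |(Hk n μ).det| ≤ Real.exp (c - n) := by
  classical
  have hquad : ∀ x y : Fin n → ℝ, x ⬝ᵥ (Hk n μ).mulVec y = Lk μ (pol x * pol y) := by
    intro x y
    rw [pol_mul]
    simp only [dotProduct, mulVec, Finset.mul_sum, Hk_apply]
    refine Finset.sum_congr rfl fun i _ => Finset.sum_congr rfl fun j _ => ?_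
    ring
  have hHpsd : (Hk n μ).PosSemidef := by
    refine Matrix.PosSemidef.of_dotProduct_mulVec_nonneg ?_ fun x => ?_
    · ext i j
      simp [Hk_apply, add_comm]
    · have h1 : star x = x := by ext; simp
      rw [h1, hquad]
      exact hpos _ (pol_natDegree hn x)
  set U : Matrix (Fin n) (Fin n) ℝ := Matrix.of fun j i => (P j).coeff i with hU
  have hdetU : U.det = 1 := by
    rw [Matrix.det_of_isLowerTriangular U (fun i j hij => by
      simp only [hU, Matrix.of_apply]
      refine Polynomial.coeff_eq_zero_of_natDegree_lt ?_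
      rw [(hP i).2]
      exact hij)]
    refine Finset.prod_eq_one fun i _ => ?_
    simp only [hU, Matrix.of_apply]
    have h1 := (hP i).1.coeff_natDegree
    rw [(hP i).2] at h1
    exact h1
  set A := U * Hk n μ * Uᴴ with hA
  have hApsd : A.PosSemidef := hHpsd.mul_mul_conjTranspose_same U
  have hAe : ∀ j, A j j = Lk μ (P j * P j) := by
    intro j
    have h1 : pol (fun i : Fin n => (P j).coeff i) = P j := pol_coeff _ (by
      rw [(hP j).2]
      exact j.2)
    have h2 := hquad (fun i : Fin n => (P j).coeff i) (fun i : Fin n => (P j).coeff i)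
    rw [h1] at h2
    rw [← h2, hA]
    simp only [Matrix.mul_apply, dotProduct, mulVec, Finset.sum_mul, Finset.mul_sum,
      Matrix.conjTranspose_apply, star_trivial]
    rw [Finset.sum_comm]
    refine Finset.sum_congr rfl fun i _ => Finset.sum_congr rfl fun m _ => ?_
    simp only [hU, Matrix.of_apply]
    ring
  have htr : A.trace ≤ c := by
    rw [Matrix.trace]
    simp only [Matrix.diag_apply, hAe]
    exact hsum
  have hdetA : A.det = (Hk n μ).det := by
    rw [hA, Matrix.det_mul, Matrix.det_mul, Matrix.det_conjTranspose, hdetU, star_one, one_mul,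
      mul_one]
  rw [← hdetA]
  have h1 := hApsd.1.det_eq_prod_eigenvalues
  have h2 := hApsd.1.trace_eq_sum_eigenvalues
  simp only [RCLike.ofReal_real_eq_id, id_eq] at h1 h2
  have h0 : ∀ i, 0 ≤ hApsd.1.eigenvalues i := fun i => hApsd.eigenvalues_nonneg i
  rw [h1, abs_of_nonneg (Finset.prod_nonneg fun i _ => h0 i)]
  have h3 : ∏ i, hApsd.1.eigenvalues i ≤ ∏ i, Real.exp (hApsd.1.eigenvalues i - 1) :=
    Finset.prod_le_prod (fun i _ => h0 i) fun i _ => by
      have := Real.add_one_le_exp (hApsd.1.eigenvalues i - 1)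
      linarith
  refine h3.trans ?_
  rw [← Real.exp_sum, Finset.sum_sub_distrib, ← h2, Finset.sum_const, Finset.card_univ,
    Fintype.card_fin, nsmul_eq_mul, mul_one]
  exact Real.exp_le_exp.2 (by linarith)

/-- the moments as a function of finitely many coordinates -/
def ext {m : ℕ} (x : Fin m → ℝ) (r : ℕ) : ℝ := if h : r < m then x ⟨r, h⟩ else 0

theorem continuous_det (n m : ℕ) : Continuous fun x : Fin m → ℝ => (Hk n (ext x)).det := by
  refine Continuous.matrix_det ?_
  refine continuous_matrix fun i j => ?_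
  simp only [Hk_apply, ext]
  by_cases h : (i : ℕ) + j < m
  · simp only [dif_pos h]
    exact continuous_apply _
  · simp only [dif_neg h]
    exact continuous_const

theorem Hk_ext {n : ℕ} (hn : 0 < n) (μ : ℕ → ℝ) :
    Hk n (ext fun r : Fin (2 * n - 1) => μ r) = Hk n μ := by
  ext i j
  simp only [Hk_apply, ext]
  have hi := i.2
  have hj := j.2
  rw [dif_pos (show (i : ℕ) + j < 2 * n - 1 by omega)]

/-- one integral vector of moments -/
theorem near_one {n : ℕ} (hn : 0 < n) {ρ : ℝ} (hρ : ρ < 1) (k : Fin (2 * n - 1) → ℤ) :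
    ∃ (η₀ C : ℝ), 0 < η₀ ∧ 0 < C ∧ ∀ (μ : ℕ → ℝ) (η : ℝ), η ≤ η₀ →
      (∀ r : Fin (2 * n - 1), |μ r - k r| ≤ η) → |(Hk n μ).det| ≤ ρ →
      ∃ v : Fin n → ℤ, v ≠ 0 ∧ (∀ j, |(v j : ℝ)| ≤ C) ∧
        ∑ i, ∑ j, (v i : ℝ) * v j * μ (i + j) ≤ C * η := by
  classical
  set κ : ℕ → ℤ := fun r => if h : r < 2 * n - 1 then k ⟨r, h⟩ else 0 with hκ
  set H : Matrix (Fin n) (Fin n) ℤ := Matrix.of fun i j => κ (i + j) with hH
  have hκr : ∀ r : Fin (2 * n - 1), κ r = k r := fun r => by
    rw [hκ]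
    simp only [dif_pos r.2]
  have hHR : Hk n (ext fun r : Fin (2 * n - 1) => (k r : ℝ)) = H.map (Int.castRingHom ℝ) := by
    ext i j
    have hi := i.2
    have hj := j.2
    simp only [Hk_apply, ext, hH, Matrix.map_apply, Matrix.of_apply, hκ]
    rw [dif_pos (show (i : ℕ) + j < 2 * n - 1 by omega),
      dif_pos (show (i : ℕ) + j < 2 * n - 1 by omega)]
    rfl
  by_cases hdet : H.det = 0
  · obtain ⟨v, hv, hv2⟩ := Matrix.exists_mulVec_eq_zero_iff.2 hdet
    set M : ℝ := ∑ j, |(v j : ℝ)| with hM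
    have hM0 : 0 ≤ M := Finset.sum_nonneg fun j _ => abs_nonneg _
    have hle : ∀ j, |(v j : ℝ)| ≤ M := fun j =>
      Finset.single_le_sum (f := fun j => |(v j : ℝ)|) (fun j _ => abs_nonneg _)
        (Finset.mem_univ j)
    refine ⟨1, M + M ^ 2 + 1, one_pos, by positivity, fun μ η _ hμ _ =>
      ⟨v, hv, fun j => (hle j).trans (by nlinarith [sq_nonneg M]), ?_⟩⟩
    have hη : 0 ≤ η := (abs_nonneg _).trans (hμ ⟨0, by omega⟩)
    have hker : ∑ i, ∑ j, (v i : ℝ) * v j * (κ (i + j) : ℝ) = 0 := by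
      refine Finset.sum_eq_zero fun i _ => ?_
      have h2 := congrFun hv2 i
      simp only [Matrix.mulVec, dotProduct, hH, Matrix.of_apply, Pi.zero_apply] at h2
      have h3 : ∑ j : Fin n, (v i : ℝ) * (v j : ℝ) * ((κ ((i : ℕ) + j) : ℤ) : ℝ) =
          (v i : ℝ) * ((∑ j : Fin n, κ (i + j) * v j : ℤ) : ℝ) := by
        push_cast
        rw [Finset.mul_sum]
        exact Finset.sum_congr rfl fun j _ => by ring
      rw [h3, h2]
      simp
    have h1 : ∑ i, ∑ j, (v i : ℝ) * v j * μ (i + j) =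
        ∑ i, ∑ j, (v i : ℝ) * v j * (μ (i + j) - κ (i + j)) := by
      have : ∀ i j : Fin n, (v i : ℝ) * v j * (μ (i + j) - κ (i + j)) =
          (v i : ℝ) * v j * μ (i + j) - (v i : ℝ) * v j * (κ (i + j) : ℝ) := fun i j => by ring
      simp only [this, Finset.sum_sub_distrib]
      rw [hker, sub_zero]
    rw [h1]
    have h2 : ∑ i, ∑ j, (v i : ℝ) * v j * (μ (i + j) - κ (i + j)) ≤
        ∑ i : Fin n, ∑ j : Fin n, |(v i : ℝ)| * |(v j : ℝ)| * η := by
      refine Finset.sum_le_sum fun i _ => Finset.sum_le_sum fun j _ => ?_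
      refine (le_abs_self _).trans ?_
      rw [abs_mul, abs_mul]
      refine mul_le_mul_of_nonneg_left ?_ (by positivity)
      have hi := i.2
      have hj := j.2
      have h3 := hμ ⟨i + j, by omega⟩
      rw [← hκr] at h3
      exact h3
    have h3 : ∑ i : Fin n, ∑ j : Fin n, |(v i : ℝ)| * |(v j : ℝ)| * η = M ^ 2 * η := by
      rw [pow_two, hM, Finset.sum_mul_sum, Finset.sum_mul]
      exact Finset.sum_congr rfl fun i _ => by rw [Finset.sum_mul]
    rw [h3] at h2
    refine h2.trans ?_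
    nlinarith [mul_nonneg hM0 hη]
  · have hcont := (continuous_det n (2 * n - 1)).continuousAt
      (x := fun r : Fin (2 * n - 1) => (k r : ℝ))
    have hdetR : 1 ≤ |(Hk n (ext fun r : Fin (2 * n - 1) => (k r : ℝ))).det| := by
      rw [hHR]
      have h1 : (H.map (Int.castRingHom ℝ)).det = ((H.det : ℤ) : ℝ) :=
        (RingHom.map_det (Int.castRingHom ℝ) H).symm
      rw [h1]
      have h2 : (1 : ℤ) ≤ |H.det| := Int.one_le_abs hdet
      exact_mod_cast h2
    obtain ⟨η₁, hη₁, h1⟩ := Metric.continuousAt_iff.1 hcont (1 - ρ) (by linarith)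
    refine ⟨η₁ / 2, 1, half_pos hη₁, one_pos, fun μ η hη hμ hρ' => ?_⟩
    exfalso
    have hη0 : 0 ≤ η := (abs_nonneg _).trans (hμ ⟨0, by omega⟩)
    have h2 : dist (fun r : Fin (2 * n - 1) => μ r) (fun r => (k r : ℝ)) < η₁ := by
      refine lt_of_le_of_lt ((dist_pi_le_iff hη0).2 fun r => ?_) (by linarith : η < η₁)
      rw [Real.dist_eq]
      exact hμ r
    have h3 := h1 h2
    rw [Real.dist_eq, Hk_ext hn] at h3
    have h4 := abs_sub_abs_le_abs_sub (Hk n (ext fun r : Fin (2 * n - 1) => (k r : ℝ))).det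
      (Hk n μ).det
    rw [abs_sub_comm] at h4
    linarith

/-- **Moments near integers.** -/
theorem near {n : ℕ} (hn : 0 < n) {ρ : ℝ} (hρ : ρ < 1) (M : ℝ) (hM : 0 ≤ M) :
    ∃ C : ℝ, 0 < C ∧ ∀ (μ : ℕ → ℝ) (η : ℝ), (∀ r < 2 * n - 1, |μ r| ≤ M) →
      (∀ r < 2 * n - 1, ∃ k : ℤ, |μ r - k| ≤ η) → |(Hk n μ).det| ≤ ρ →
      ∃ v : Fin n → ℤ, v ≠ 0 ∧ (∀ j, |(v j : ℝ)| ≤ C) ∧
        ∑ i, ∑ j, (v i : ℝ) * v j * μ (i + j) ≤ C * η := by
  classical
  choose η₀ C hη₀ hC hmain using near_one hn hρ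
  set Z : ℤ := ⌈M⌉ + 1 with hZ
  set box : Finset (Fin (2 * n - 1) → ℤ) := Fintype.piFinset fun _ => Finset.Icc (-Z) Z with hbox
  have hZ0 : 0 ≤ Z := by
    have : 0 ≤ ⌈M⌉ := Int.ceil_nonneg hM
    omega
  have hne : box.Nonempty := ⟨fun _ => 0, by
    rw [hbox, Fintype.mem_piFinset]
    intro _
    rw [Finset.mem_Icc]
    omega⟩
  obtain ⟨k₀, hk₀, hmin⟩ := box.exists_min_image η₀ hne
  set η₂ := min (η₀ k₀) 1 with hη₂
  have hη₂0 : 0 < η₂ := lt_min (hη₀ k₀) one_pos
  set C' := ∑ k ∈ box, C k with hC'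
  have hC'0 : ∀ k ∈ box, C k ≤ C' := fun k hk =>
    Finset.single_le_sum (f := C) (fun k _ => (hC k).le) hk
  have hC'nn : 0 ≤ C' := Finset.sum_nonneg fun k _ => (hC k).le
  refine ⟨C' + M / η₂ + 1, by positivity, fun μ η hμ hk hdet => ?_⟩
  have hη : 0 ≤ η := by
    obtain ⟨k, hk⟩ := hk 0 (by omega)
    exact (abs_nonneg _).trans hk
  by_cases hle : η ≤ η₂
  · choose k hk using hk
    set k' : Fin (2 * n - 1) → ℤ := fun r => k r r.2 with hk'
    have hbx : k' ∈ box := by
      rw [hbox, Fintype.mem_piFinset]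
      intro r
      rw [Finset.mem_Icc]
      have h1 := hk r r.2
      have h2 := hμ r r.2
      have h3 : |((k' r : ℤ) : ℝ)| ≤ M + 1 := by
        have e : ((k' r : ℤ) : ℝ) = μ r - (μ r - k' r) := by ring
        rw [e]
        refine (abs_sub _ _).trans ?_
        have := hle.trans (min_le_right _ _)
        have h1' : |μ r - k' r| ≤ η := h1
        linarith
      have h4 : ((|k' r| : ℤ) : ℝ) ≤ Z := by
        rw [hZ]
        push_cast
        have := Int.le_ceil M
        linarith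
      have h5 : |k' r| ≤ Z := by exact_mod_cast h4
      exact abs_le.1 h5
    obtain ⟨v, hv, hvC, hsum⟩ := hmain k' μ η
      (hle.trans ((min_le_left _ _).trans (hmin k' hbx))) (fun r => hk r r.2) hdet
    refine ⟨v, hv, fun j => (hvC j).trans ((hC'0 k' hbx).trans ?_), hsum.trans ?_⟩
    · have : 0 ≤ M / η₂ := by positivity
      linarith
    · refine mul_le_mul_of_nonneg_right ((hC'0 k' hbx).trans ?_) hη
      have : 0 ≤ M / η₂ := by positivity
      linarith
  · rw [not_le] at hle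
    refine ⟨Pi.single ⟨0, hn⟩ 1, ?_, fun j => ?_, ?_⟩
    · intro h
      have := congrFun h ⟨0, hn⟩
      simp at this
    · have h0 : 0 ≤ M / η₂ := by positivity
      by_cases hj : j = ⟨0, hn⟩
      · subst hj
        simp only [Pi.single_eq_same, Int.cast_one, abs_one]
        linarith
      · rw [Pi.single_eq_of_ne hj]
        simp only [Int.cast_zero, abs_zero]
        linarith
    · rw [Finset.sum_eq_single ⟨0, hn⟩, Finset.sum_eq_single ⟨0, hn⟩]
      · simp only [Pi.single_eq_same, Int.cast_one, mul_one, one_mul, add_zero]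
        have h1 := (le_abs_self _).trans (hμ 0 (by omega))
        have h2 : M = (M / η₂) * η₂ := by field_simp
        have h3 : (M / η₂) * η₂ ≤ (M / η₂) * η :=
          mul_le_mul_of_nonneg_left hle.le (by positivity)
        nlinarith [mul_nonneg hC'nn hη]
      · intro j _ hj
        rw [Pi.single_eq_of_ne hj]
        simp
      · intro h
        exact absurd (Finset.mem_univ _) h
      · intro i _ hi
        refine Finset.sum_eq_zero fun j _ => ?_
        rw [Pi.single_eq_of_ne hi]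
        simp
      · intro h
        exact absurd (Finset.mem_univ _) h

end Pool.Agent.Y139.IM
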