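import Pool.Agent.Y139.IM.Quant
import Pool.Agent.Y139.IM.Fatou2

/-! The quantitative version for the mean values. -/

set_option autoImplicit false

namespace Pool.Agent.Y139.IM

open Complex Filter Topology NumberField IsDedekindDomain
  Pool.Agent.W401.Cheb Pool.Agent.W540.BE Pool.Agent.W353.L1 Polynomial
open Pool.Agent.H341R2 (lam lam_tendsto)

section
variable {K : Type} [Field K] [NumberField K]

theorem mean_abs_le {φ ψ : HeightOneSpectrum (𝓞 K) → ℝ} {B : ℝ} (hψ : ∀ v, |ψ v| ≤ B)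
    (h : ∀ v, |φ v| ≤ ψ v) {ε : ℝ} (hε : 0 < ε) (hlam : 0 < lam ε) :
    |mean φ ε| ≤ mean ψ ε := by
  unfold mean
  rw [abs_div, abs_of_pos hlam]
  exact div_le_div_of_nonneg_right (EP_abs_le hψ h hε) hlam.le

variable {T : HeightOneSpectrum (𝓞 K) → ℝ} {N : ℝ} (hT : ∀ v, |T v| ≤ N)

include hT

theorem Lk_mean {ε : ℝ} (hε : 0 < ε) (p : ℝ[X]) :
    Lk (fun r => mean (fun v => T v ^ r) ε) p = mean (fun v => p.eval (T v)) ε := by
  classical
  rw [Lk_sum _ p (Nat.lt_succ_self _)]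
  unfold mean
  have h2 : (EP (nm K) ε fun v => p.eval (T v)) =
      ∑ r ∈ Finset.range (p.natDegree + 1), EP (nm K) ε fun v => p.coeff r * T v ^ r := by
    rw [← EP_sum normSys hε (Finset.range _) (fun r v => p.coeff r * T v ^ r)
      (fun r => |p.coeff r| * N ^ r) (by
        intro r _ v
        rw [abs_mul, abs_pow]
        exact mul_le_mul_of_nonneg_left (pow_le_pow_left₀ (abs_nonneg _) (hT v) r)
          (abs_nonneg _))]
    congr 1
    funext v
    exact Polynomial.eval_eq_sum_range' (Nat.lt_succ_self _) _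
  rw [h2, Finset.sum_div]
  refine Finset.sum_congr rfl fun r _ => ?_
  rw [EP_const_mul, mul_div_assoc]

end

open Classical in
/-- **The moments cannot all be near integers.** -/
theorem quant {S : Set ℝ} (hS : SmallCapacity S) (N : ℝ) :
    ∃ (n : ℕ) (δ C : ℝ), 0 < n ∧ 0 < δ ∧ 0 < C ∧ ∀ (K : Type) [Field K] [NumberField K]
      (T : HeightOneSpectrum (𝓞 K) → ℝ), (∀ v, |T v| ≤ N) → ∀ m : ℕ → ℝ → ℝ,
      (∀ r < 2 * n - 1, Tendsto (fun ε => mean (fun v => T v ^ r) ε - m r ε) (𝓝[>] 0) (𝓝 0)) →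
      ∀ η : ℝ, 0 < η → ∀ᶠ ε : ℝ in 𝓝[>] 0,
        δ ≤ mean (fun v => if T v ∈ S then 0 else 1) ε ∨
        (∃ r < 2 * n - 1, ∀ k : ℤ, η < |m r ε - k|) ∨
        ∃ Q : ℤ[X], Q ≠ 0 ∧ Q.natDegree < n ∧ (∀ j, |((Q.coeff j : ℤ) : ℝ)| ≤ C) ∧
          mean (fun v => (Q.map (Int.castRingHom ℝ)).eval (T v) ^ 2) ε ≤ C * η := by
  obtain ⟨n, δ, P, b, B, hn, hδ, hB0, hP, hb0, hbS, hB, hsum⟩ := exists_data hS N
  set s : ℝ := ∑ j ∈ Finset.range n, (b j ^ 2 + B ^ 2 * δ) with hs
  set c : ℝ := (s + n) / 2 with hc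
  have hsc : s < c := by rw [hc]; linarith
  have hcn : c < n := by rw [hc]; linarith
  set N' : ℝ := max N 1 with hN'
  have hN'1 : 1 ≤ N' := le_max_right _ _
  obtain ⟨C₀, hC₀, hnear⟩ := near hn (ρ := Real.exp (c - n)) (by
    rw [← Real.exp_zero]
    exact Real.exp_lt_exp.2 (by linarith)) (2 * N' ^ (2 * n)) (by positivity)
  refine ⟨n, δ, 2 * C₀, hn, hδ, by positivity, fun K _ _ T hT m hm η hη => ?_⟩
  have hone : Tendsto (fun ε : ℝ => mean (K := K) (fun _ => 1) ε) (𝓝[>] 0) (𝓝 1) := EP_one K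
  set sb : ℝ := ∑ j ∈ Finset.range n, b j ^ 2 with hsb
  have hsplit : s = sb + n * (B ^ 2 * δ) := by
    rw [hs, Finset.sum_add_distrib, Finset.sum_const, Finset.card_range, nsmul_eq_mul]
  have hlim1 : Tendsto (fun ε : ℝ => sb * mean (K := K) (fun _ => 1) ε + n * (B ^ 2 * δ)) (𝓝[>] 0)
      (𝓝 (sb * 1 + n * (B ^ 2 * δ))) := (hone.const_mul _).add_const _
  have hm' : ∀ᶠ ε : ℝ in 𝓝[>] 0, ∀ r ∈ Finset.range (2 * n - 1),
      |mean (fun v => T v ^ r) ε - m r ε| < η := by
    rw [Filter.eventually_all_finset]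
    intro r hr
    have h1 := hm r (Finset.mem_range.1 hr)
    have h2 := (tendsto_zero_iff_abs_tendsto_zero _).1 h1
    exact h2.eventually_lt_const hη
  filter_upwards [self_mem_nhdsWithin, lam_tendsto.eventually_gt_atTop 0,
    hone.eventually_lt_const (by norm_num : (1 : ℝ) < 2),
    hlim1.eventually_lt_const (show sb * 1 + n * (B ^ 2 * δ) < c by
      rw [mul_one, ← hsplit]
      exact hsc), hm'] with ε hε hlam h2 h3 h4
  by_cases hd : δ ≤ mean (fun v => if T v ∈ S then 0 else 1) ε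
  · exact Or.inl hd
  rw [not_le] at hd
  by_cases hr : ∃ r < 2 * n - 1, ∀ k : ℤ, η < |m r ε - k|
  · exact Or.inr (Or.inl hr)
  push Not at hr
  right; right
  have hε' : (0 : ℝ) < ε := hε
  set μ : ℕ → ℝ := fun r => mean (fun v => T v ^ r) ε with hμ
  have hμb : ∀ r < 2 * n - 1, |μ r| ≤ 2 * N' ^ (2 * n) := by
    intro r hr
    have h5 : |μ r| ≤ mean (fun v : HeightOneSpectrum (𝓞 K) => N' ^ (2 * n) * 1) ε := by
      refine mean_abs_le (B := N' ^ (2 * n)) (fun v => ?_) (fun v => ?_) hε' hlam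
      · rw [mul_one, abs_of_nonneg (by positivity)]
      · rw [mul_one, abs_pow]
        exact (pow_le_pow_left₀ (abs_nonneg _) ((hT v).trans (le_max_left _ _)) r).trans
          (pow_le_pow_right₀ hN'1 (by omega))
    refine h5.trans ?_
    have h6 : mean (fun v : HeightOneSpectrum (𝓞 K) => N' ^ (2 * n) * 1) ε =
        N' ^ (2 * n) * mean (K := K) (fun _ => 1) ε := by
      unfold mean
      rw [EP_const_mul, mul_div_assoc]
    rw [h6, mul_comm]
    exact mul_le_mul_of_nonneg_right h2.le (by positivity)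
  have hk : ∀ r < 2 * n - 1, ∃ k : ℤ, |μ r - k| ≤ 2 * η := by
    intro r hr'
    obtain ⟨k, hk⟩ := hr r hr'
    refine ⟨k, ?_⟩
    have h5 := h4 r (Finset.mem_range.2 hr')
    have e : μ r - k = (μ r - m r ε) + (m r ε - k) := by ring
    rw [e]
    refine (abs_add_le _ _).trans ?_
    linarith [h5.le]
  have hLk := Lk_mean hT hε'
  have hpos : ∀ p : ℝ[X], p.natDegree < n → 0 ≤ Lk μ (p * p) := by
    intro p _
    rw [hLk]
    refine div_nonneg (EP_nonneg fun v => ?_) hlam.le
    rw [eval_mul]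
    exact mul_self_nonneg _
  have hPsum : ∑ j : Fin n, Lk μ (P j * P j) ≤ c := by
    have h5 : ∀ j : Fin n, Lk μ (P j * P j) ≤
        b j ^ 2 * mean (K := K) (fun _ => 1) ε + B ^ 2 * δ := by
      intro j
      rw [hLk]
      have h6 : ∀ v, |(P j * P j).eval (T v)| ≤
          b j ^ 2 * 1 + B ^ 2 * (if T v ∈ S then 0 else 1) := by
        intro v
        rw [eval_mul, abs_mul]
        split_ifs with h
        · have := hbS j j.2 _ h (hT v)
          have h0 := abs_nonneg ((P j).eval (T v))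
          nlinarith
        · have := hB j j.2 _ (hT v)
          have h0 := abs_nonneg ((P j).eval (T v))
          nlinarith [sq_nonneg (b j)]
      have b1 : ∀ v : HeightOneSpectrum (𝓞 K), |b j ^ 2 * (1 : ℝ)| ≤ b j ^ 2 := fun v => by
        rw [mul_one, abs_of_nonneg (sq_nonneg _)]
      have b2 : ∀ v, |B ^ 2 * (if T v ∈ S then (0 : ℝ) else 1)| ≤ B ^ 2 := fun v => by
        rw [abs_mul, abs_of_nonneg (sq_nonneg B)]
        split_ifs
        · rw [abs_zero, mul_zero]
          exact sq_nonneg _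
        · rw [abs_one, mul_one]
      have h7 := (le_abs_self _).trans (mean_abs_le (φ := fun v => (P j * P j).eval (T v))
        (ψ := fun v => b j ^ 2 * 1 + B ^ 2 * (if T v ∈ S then 0 else 1)) (B := b j ^ 2 + B ^ 2)
        (fun v => (abs_add_le _ _).trans (add_le_add (b1 v) (b2 v))) h6 hε' hlam)
      refine h7.trans ?_
      have h8 : mean (fun v => b j ^ 2 * 1 + B ^ 2 * (if T v ∈ S then 0 else 1)) ε =
          b j ^ 2 * mean (K := K) (fun _ => 1) ε +
            B ^ 2 * mean (fun v => if T v ∈ S then 0 else 1) ε := by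
        unfold mean
        rw [EP_add normSys hε' b1 b2, EP_const_mul, EP_const_mul, add_div, mul_div_assoc,
          mul_div_assoc]
      rw [h8]
      have := mul_le_mul_of_nonneg_left hd.le (sq_nonneg B)
      linarith
    refine (Finset.sum_le_sum fun j _ => h5 j).trans ?_
    rw [Fin.sum_univ_eq_sum_range
      (fun j => b j ^ 2 * mean (K := K) (fun _ => 1) ε + B ^ 2 * δ) n, Finset.sum_add_distrib,
      ← Finset.sum_mul, Finset.sum_const, Finset.card_range, nsmul_eq_mul]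
    exact h3.le
  have hdet := Hk_det μ hpos (fun j => P j) (fun j => hP j) hPsum hn
  obtain ⟨v, hv, hvC, hvsum⟩ := hnear μ (2 * η) hμb hk hdet
  refine ⟨polZ v, polZ_ne hv, polZ_natDegree hn v, fun j => ?_, ?_⟩
  · by_cases hj : j < n
    · have h5 := polZ_coeff v ⟨j, hj⟩
      simp only at h5
      rw [h5]
      refine (hvC _).trans ?_
      linarith
    · rw [coeff_eq_zero_of_natDegree_lt (lt_of_lt_of_le (polZ_natDegree hn v) (not_lt.1 hj))]
      simp only [Int.cast_zero, abs_zero]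
      positivity
  · have h5 : mean (fun w => ((polZ v).map (Int.castRingHom ℝ)).eval (T w) ^ 2) ε =
        Lk μ ((polZ v).map (Int.castRingHom ℝ) * (polZ v).map (Int.castRingHom ℝ)) := by
      rw [hLk]
      congr 1
      funext w
      rw [eval_mul, pow_two]
    rw [h5, polZ_map hn, pol_mul]
    refine hvsum.trans (le_of_eq ?_)
    ring

end Pool.Agent.Y139.IM
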