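import Pool.Agent.Y139.IM.Hankel
import Pool.Agent.Y139.IM.Defs

/-! Sets of small capacity: monic polynomials that are small on the set. -/

set_option autoImplicit false

namespace Pool.Agent.Y139.IM

open Polynomial Filter Topology

/-- the polynomials `q ^ (j / m) * X ^ (j % m)` -/
noncomputable def PQ (q : ℝ[X]) (j : ℕ) : ℝ[X] :=
  q ^ (j / q.natDegree) * X ^ (j % q.natDegree)

theorem PQ_monic {q : ℝ[X]} (hq : q.Monic) (j : ℕ) : (PQ q j).Monic :=
  (hq.pow _).mul (monic_X_pow _)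

theorem PQ_natDegree {q : ℝ[X]} (hq : q.Monic) (j : ℕ) : (PQ q j).natDegree = j := by
  unfold PQ
  rw [(hq.pow _).natDegree_mul (monic_X_pow _), hq.natDegree_pow, natDegree_X_pow]
  exact Nat.div_add_mod' j q.natDegree

theorem PQ_small {q : ℝ[X]} {c N : ℝ} (hm : 1 ≤ q.natDegree) (hc0 : 0 ≤ c)
    (hN : 1 ≤ N) (j : ℕ) {x : ℝ} (hx : |x| ≤ N) (hq : |q.eval x| ≤ c) :
    |(PQ q j).eval x| ≤ c ^ (j / q.natDegree) * N ^ q.natDegree := by
  unfold PQ
  rw [eval_mul, eval_pow, eval_pow, eval_X, abs_mul, abs_pow, abs_pow]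
  refine mul_le_mul (pow_le_pow_left₀ (abs_nonneg _) hq _) ?_ (by positivity) (by positivity)
  refine (pow_le_pow_left₀ (abs_nonneg _) hx _).trans ?_
  exact pow_le_pow_right₀ hN (Nat.mod_lt _ hm).le

/-- **The data for a set of small capacity.** -/
theorem exists_data {S : Set ℝ} (hS : SmallCapacity S) (N : ℝ) :
    ∃ (n : ℕ) (δ : ℝ) (P : ℕ → ℝ[X]) (b : ℕ → ℝ) (B : ℝ), 0 < n ∧ 0 < δ ∧ 0 ≤ B ∧
      (∀ j, (P j).Monic ∧ (P j).natDegree = j) ∧ (∀ j, 0 ≤ b j) ∧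
      (∀ j < n, ∀ x ∈ S, |x| ≤ N → |(P j).eval x| ≤ b j) ∧
      (∀ j < n, ∀ x, |x| ≤ N → |(P j).eval x| ≤ B) ∧
      ∑ j ∈ Finset.range n, (b j ^ 2 + B ^ 2 * δ) < n := by
  obtain ⟨q, c, hq, hm, hc, hS⟩ := hS
  set c' : ℝ := max c 0 with hc'
  have hc'0 : 0 ≤ c' := le_max_right _ _
  have hc'1 : c' < 1 := max_lt hc zero_lt_one
  set N' : ℝ := max N 1 with hN'
  have hN'1 : 1 ≤ N' := le_max_right _ _
  set b : ℕ → ℝ := fun j => c' ^ (j / q.natDegree) * N' ^ q.natDegree with hb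
  have hb0 : ∀ j, 0 ≤ b j := fun j => by positivity
  have hlim : Tendsto (fun j => b j ^ 2) atTop (𝓝 0) := by
    have h1 : Tendsto (fun j : ℕ => j / q.natDegree) atTop atTop :=
      Nat.tendsto_div_const_atTop (by omega)
    have h2 : Tendsto (fun j : ℕ => c' ^ (j / q.natDegree)) atTop (𝓝 0) :=
      (tendsto_pow_atTop_nhds_zero_of_lt_one hc'0 hc'1).comp h1
    have h3 := (h2.mul_const (N' ^ q.natDegree)).pow 2
    simpa using h3
  have hces := hlim.cesaro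
  obtain ⟨n, hn1, hn0⟩ := ((hces.eventually_lt_const (by norm_num : (0 : ℝ) < 1 / 2)).and
    (eventually_gt_atTop 0)).exists
  have hn0' : (0 : ℝ) < n := by exact_mod_cast hn0
  -- a bound on the whole interval
  have hB : ∀ j, ∃ B : ℝ, 0 ≤ B ∧ ∀ x, |x| ≤ N → |(PQ q j).eval x| ≤ B := by
    intro j
    have hcomp : IsCompact (Set.Icc (-N) N) := isCompact_Icc
    obtain ⟨C, hC⟩ := hcomp.exists_bound_of_continuousOn (f := fun x => (PQ q j).eval x)
      (PQ q j).continuous.continuousOn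
    refine ⟨max C 0, le_max_right _ _, fun x hx => ?_⟩
    have h1 := hC x (abs_le.1 hx)
    rw [Real.norm_eq_abs] at h1
    exact h1.trans (le_max_left _ _)
  choose C hC0 hC using hB
  set B : ℝ := ∑ j ∈ Finset.range n, C j with hBd
  have hB0 : 0 ≤ B := Finset.sum_nonneg fun j _ => hC0 j
  have hCB : ∀ j < n, C j ≤ B := fun j hj =>
    Finset.single_le_sum (f := fun j => C j) (fun j _ => hC0 j) (Finset.mem_range.2 hj)
  refine ⟨n, 1 / (2 * (B ^ 2 + 1)), PQ q, b, B, hn0, by positivity, hB0,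
    fun j => ⟨PQ_monic hq j, PQ_natDegree hq j⟩, hb0, fun j _ x hx hxN => ?_,
    fun j hj x hx => (hC j x hx).trans (hCB j hj), ?_⟩
  · exact PQ_small hm hc'0 hN'1 j (hxN.trans (le_max_left _ _))
      ((hS x hx).trans (le_max_left _ _))
  · rw [Finset.sum_add_distrib, Finset.sum_const, Finset.card_range, nsmul_eq_mul]
    have h1 : ∑ j ∈ Finset.range n, b j ^ 2 < n / 2 := by
      have h2 : (n : ℝ)⁻¹ * ∑ j ∈ Finset.range n, b j ^ 2 < 1 / 2 := hn1
      rw [inv_mul_lt_iff₀ hn0'] at h2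
      linarith
    have h3 : B ^ 2 * (1 / (2 * (B ^ 2 + 1))) < 1 / 2 := by
      rw [mul_one_div, div_lt_div_iff₀ (by positivity) (by norm_num)]
      nlinarith [sq_nonneg B]
    have h4 : (n : ℝ) * (B ^ 2 * (1 / (2 * (B ^ 2 + 1)))) < n * (1 / 2) :=
      mul_lt_mul_of_pos_left h3 hn0'
    linarith

end Pool.Agent.Y139.IM
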